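import Mathlib

/-!
# MP_b43024_an: unstable manifolds of maps with quadratic error, as limits
-/

set_option autoImplicit false

namespace Pool.Agent.Lib.MP_b43024_an

open Filter Topology

/-- A map `H` of `W × Z` fixing `0`, whose linear part is `(A, D)` with `A` expanding (inverse `B`)
and `D` contracting, `‖A‖ ‖B‖ ^ 2 < 1`, and whose error term is Lipschitz with a constant
proportional to the radius. -/
structure UD (W Z : Type*) [NormedAddCommGroup W] [NormedSpace ℝ W] [NormedAddCommGroup Z]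
    [NormedSpace ℝ Z] where
  H : W × Z → W × Z
  A : W →ₗ[ℝ] W
  B : W →ₗ[ℝ] W
  D : Z →ₗ[ℝ] Z
  r : ℝ
  θ : ℝ
  M : ℝ
  K : ℝ
  δ : ℝ
  hAB : ∀ w, A (B w) = w
  hBA : ∀ w, B (A w) = w
  hB : ∀ w, ‖B w‖ ≤ r * ‖w‖
  hA : ∀ w, ‖A w‖ ≤ M * ‖w‖
  hD : ∀ z, ‖D z‖ ≤ θ * ‖z‖
  r0 : 0 < r
  r1 : r < 1
  θ0 : 0 ≤ θ
  θ1 : θ < 1
  M1 : 1 ≤ M
  Mr : M * r ^ 2 < 1
  K0 : 0 ≤ K
  δ0 : 0 < δ
  cont : Continuous H
  H0 : H 0 = 0
  lip : ∀ ρ : ℝ, ρ ≤ δ → ∀ h h' : W × Z, ‖h‖ ≤ ρ → ‖h'‖ ≤ ρ →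
    ‖(H h - H h') - (A (h.1 - h'.1), D (h.2 - h'.2))‖ ≤ K * ρ * ‖h - h'‖

set_option linter.unusedSectionVars false

namespace UD

variable {W Z : Type*} [NormedAddCommGroup W] [NormedSpace ℝ W] [NormedAddCommGroup Z]
    [NormedSpace ℝ Z] (S : UD W Z)

/-- the inclusion of `W` -/
def io (w : W) : W × Z := (w, 0)

theorem norm_io (w : W) : ‖(io w : W × Z)‖ = ‖w‖ := by
  simp [io, Prod.norm_def]

theorem io_sub (w w' : W) : (io w - io w' : W × Z) = io (w - w') := by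
  simp [io]

theorem io_continuous : Continuous (io : W → W × Z) := by
  unfold io
  fun_prop

/-- the approximations -/
def F (k : ℕ) (w : W) : W × Z := S.H^[k] (io (S.B^[k] w))

theorem F_zero (w : W) : S.F 0 w = io w := rfl

theorem F_add (k m : ℕ) (w : W) : S.F (k + m) w = S.H^[m] (S.F k (S.B^[m] w)) := by
  unfold F
  rw [← Function.iterate_add_apply, ← Function.iterate_add_apply, Nat.add_comm k m]

theorem F_succ (k : ℕ) (w : W) : S.F (k + 1) w = S.H (S.F k (S.B w)) := S.F_add k 1 w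

theorem iter_zero (k : ℕ) : S.H^[k] 0 = 0 := Function.iterate_fixed S.H0 k

theorem B_zero : S.B 0 = 0 := map_zero _

theorem Bit_zero (k : ℕ) : S.B^[k] 0 = 0 := Function.iterate_fixed S.B_zero k

theorem F_at_zero (k : ℕ) : S.F k 0 = 0 := by
  unfold F
  rw [Bit_zero]
  exact S.iter_zero k

theorem norm_Bit (k : ℕ) (w : W) : ‖S.B^[k] w‖ ≤ S.r ^ k * ‖w‖ := by
  induction k with
  | zero => simp
  | succ k ih =>
    rw [Function.iterate_succ_apply']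
    calc ‖S.B (S.B^[k] w)‖ ≤ S.r * ‖S.B^[k] w‖ := S.hB _
      _ ≤ S.r * (S.r ^ k * ‖w‖) := mul_le_mul_of_nonneg_left ih S.r0.le
      _ = S.r ^ (k + 1) * ‖w‖ := by ring

theorem norm_lin (h : W × Z) : ‖((S.A h.1, S.D h.2) : W × Z)‖ ≤ S.M * ‖h‖ := by
  have hM : 0 ≤ S.M := by linarith [S.M1]
  rw [Prod.norm_mk]
  refine max_le ?_ ?_
  · exact (S.hA _).trans (mul_le_mul_of_nonneg_left (norm_fst_le h) hM)
  · refine (S.hD _).trans ?_
    have h1 := norm_snd_le h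
    have h2 := norm_nonneg h.2
    have h3 := S.θ1
    have h4 := S.M1
    nlinarith

/-- Lipschitz estimate -/
theorem lipH {ρ : ℝ} (hρ : ρ ≤ S.δ) {h h' : W × Z} (h1 : ‖h‖ ≤ ρ) (h2 : ‖h'‖ ≤ ρ) :
    ‖S.H h - S.H h'‖ ≤ (S.M + S.K * ρ) * ‖h - h'‖ := by
  have h3 := S.lip ρ hρ h h' h1 h2
  have h4 := S.norm_lin (h - h')
  calc ‖S.H h - S.H h'‖ = ‖((S.H h - S.H h') - (S.A (h.1 - h'.1), S.D (h.2 - h'.2))) +
        (S.A (h - h').1, S.D (h - h').2)‖ := by simp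
    _ ≤ S.K * ρ * ‖h - h'‖ + S.M * ‖h - h'‖ := (norm_add_le _ _).trans (add_le_add h3 h4)
    _ = _ := by ring

/-- the constant -/
noncomputable def C : ℝ := 4 * S.K * S.r ^ 2 / (1 - S.M * S.r ^ 2)

/-- the radius -/
noncomputable def ρ0 : ℝ := min (S.δ / 2) ((1 - S.M * S.r ^ 2) / (4 * S.K * S.r ^ 2 + 1))

theorem den_pos : 0 < 1 - S.M * S.r ^ 2 := by linarith [S.Mr]

theorem C_nonneg : 0 ≤ S.C := by
  unfold C
  have := S.den_pos
  have := S.K0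
  positivity

theorem C_eq : S.M * S.r ^ 2 * S.C + 4 * S.K * S.r ^ 2 = S.C := by
  unfold C
  have := S.den_pos
  field_simp
  ring

theorem ρ0_pos : 0 < S.ρ0 := by
  unfold ρ0
  have h1 := S.den_pos
  have h2 := S.K0
  have h3 := S.δ0
  refine lt_min (by linarith) ?_
  positivity

theorem ρ0_le : 2 * S.ρ0 ≤ S.δ := by
  have : S.ρ0 ≤ S.δ / 2 := min_le_left _ _
  linarith

theorem Kρ0 : 4 * S.K * S.r ^ 2 * S.ρ0 ≤ 1 - S.M * S.r ^ 2 := by
  have h1 := S.den_pos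
  have h2 := S.K0
  have h3 : S.ρ0 ≤ (1 - S.M * S.r ^ 2) / (4 * S.K * S.r ^ 2 + 1) := min_le_right _ _
  have h4 : 0 < 4 * S.K * S.r ^ 2 + 1 := by positivity
  rw [le_div_iff₀ h4] at h3
  have h5 := S.ρ0_pos
  nlinarith

theorem Cρ0 : S.C * S.ρ0 ≤ 1 := by
  unfold C
  have h1 := S.den_pos
  rw [div_mul_eq_mul_div, div_le_one h1]
  exact S.Kρ0

/-- the main estimate -/
theorem F_lip (k : ℕ) : ∀ ρ : ℝ, ρ ≤ S.ρ0 → ∀ u u' : W, ‖u‖ ≤ ρ → ‖u'‖ ≤ ρ →
    ‖(S.F k u - io u) - (S.F k u' - io u')‖ ≤ S.C * ρ * ‖u - u'‖ := by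
  induction k with
  | zero =>
    intro ρ hρ u u' hu hu'
    rw [F_zero, F_zero, sub_self, sub_self, sub_self, norm_zero]
    have h1 := S.C_nonneg
    have h2 : 0 ≤ ρ := (norm_nonneg _).trans hu
    positivity
  | succ k ih =>
    intro ρ hρ u u' hu hu'
    have hρ00 : 0 ≤ ρ := (norm_nonneg _).trans hu
    have hr0 := S.r0
    have hr1 := S.r1
    have hC := S.C_nonneg
    have hCρ := S.Cρ0
    have hδ := S.ρ0_le
    have hrρ : S.r * ρ ≤ S.ρ0 := by nlinarith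
    have hBu : ∀ v : W, ‖v‖ ≤ ρ → ‖S.B v‖ ≤ S.r * ρ := fun v hv =>
      (S.hB v).trans (mul_le_mul_of_nonneg_left hv hr0.le)
    have hBuu : ‖S.B u - S.B u'‖ ≤ S.r * ‖u - u'‖ := by
      rw [← map_sub]
      exact S.hB _
    -- sizes
    have hsize : ∀ v : W, ‖v‖ ≤ ρ → ‖S.F k (S.B v)‖ ≤ 2 * (S.r * ρ) := by
      intro v hv
      have h1 := ih (S.r * ρ) hrρ (S.B v) 0 (hBu v hv) (by rw [norm_zero]; positivity)
      rw [F_at_zero] at h1
      have h2 : (io (0 : W) : W × Z) = 0 := rfl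
      rw [h2, sub_self, sub_zero, sub_zero] at h1
      have h3 : ‖S.F k (S.B v)‖ ≤ ‖S.F k (S.B v) - io (S.B v)‖ + ‖(io (S.B v) : W × Z)‖ := by
        have h30 := norm_add_le (S.F k (S.B v) - io (S.B v)) (io (S.B v) : W × Z)
        rwa [sub_add_cancel] at h30
      rw [norm_io] at h3
      have h4 := hBu v hv
      have h5 : S.C * (S.r * ρ) ≤ 1 := by nlinarith
      have h6 : S.C * (S.r * ρ) * ‖S.B v‖ ≤ 1 * ‖S.B v‖ :=
        mul_le_mul_of_nonneg_right h5 (norm_nonneg _)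
      linarith
    have hih := ih (S.r * ρ) hrρ (S.B u) (S.B u') (hBu u hu) (hBu u' hu')
    have hdiff : ‖S.F k (S.B u) - S.F k (S.B u')‖ ≤ 2 * (S.r * ‖u - u'‖) := by
      have h3 : ‖S.F k (S.B u) - S.F k (S.B u')‖ ≤
          ‖(S.F k (S.B u) - io (S.B u)) - (S.F k (S.B u') - io (S.B u'))‖ +
            ‖(io (S.B u) - io (S.B u') : W × Z)‖ := by
        have h4 := norm_add_le ((S.F k (S.B u) - io (S.B u)) - (S.F k (S.B u') - io (S.B u')))
          (io (S.B u) - io (S.B u') : W × Z)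
        have h5 : ((S.F k (S.B u) - io (S.B u)) - (S.F k (S.B u') - io (S.B u'))) +
          (io (S.B u) - io (S.B u') : W × Z) = S.F k (S.B u) - S.F k (S.B u') := by abel
        rwa [h5] at h4
      rw [io_sub, norm_io] at h3
      have h5 : S.C * (S.r * ρ) ≤ 1 := by nlinarith
      have h6 : S.C * (S.r * ρ) * ‖S.B u - S.B u'‖ ≤ 1 * ‖S.B u - S.B u'‖ :=
        mul_le_mul_of_nonneg_right h5 (norm_nonneg _)
      linarith
    have hlip := S.lip (2 * (S.r * ρ)) (by nlinarith) _ _ (hsize u hu) (hsize u' hu')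
    rw [F_succ, F_succ]
    -- decomposition
    have hdec : (S.H (S.F k (S.B u)) - io u) - (S.H (S.F k (S.B u')) - io u') =
        ((S.H (S.F k (S.B u)) - S.H (S.F k (S.B u'))) -
          (S.A ((S.F k (S.B u)).1 - (S.F k (S.B u')).1),
            S.D ((S.F k (S.B u)).2 - (S.F k (S.B u')).2))) +
        (S.A (((S.F k (S.B u) - io (S.B u)) - (S.F k (S.B u') - io (S.B u'))).1),
          S.D (((S.F k (S.B u) - io (S.B u)) - (S.F k (S.B u') - io (S.B u'))).2)) := by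
      refine Prod.ext ?_ ?_
      · simp only [io, Prod.fst_sub, Prod.fst_add, map_sub, S.hAB]
        abel
      · simp only [io, Prod.snd_sub, Prod.snd_add, map_sub, map_zero]
        abel
    rw [hdec]
    refine (norm_add_le _ _).trans ?_
    have h7 := S.norm_lin ((S.F k (S.B u) - io (S.B u)) - (S.F k (S.B u') - io (S.B u')))
    have hM : 0 ≤ S.M := by linarith [S.M1]
    have h8 : S.M * ‖(S.F k (S.B u) - io (S.B u)) - (S.F k (S.B u') - io (S.B u'))‖ ≤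
        S.M * (S.C * (S.r * ρ) * (S.r * ‖u - u'‖)) := by
      refine mul_le_mul_of_nonneg_left (hih.trans ?_) hM
      exact mul_le_mul_of_nonneg_left hBuu (by positivity)
    have h9 : S.K * (2 * (S.r * ρ)) * ‖S.F k (S.B u) - S.F k (S.B u')‖ ≤
        S.K * (2 * (S.r * ρ)) * (2 * (S.r * ‖u - u'‖)) := by
      have := S.K0
      exact mul_le_mul_of_nonneg_left hdiff (by positivity)
    have h10 := S.C_eq
    calc _ ≤ S.K * (2 * (S.r * ρ)) * (2 * (S.r * ‖u - u'‖)) +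
          S.M * (S.C * (S.r * ρ) * (S.r * ‖u - u'‖)) :=
          add_le_add (hlip.trans h9) (h7.trans h8)
      _ = (S.M * S.r ^ 2 * S.C + 4 * S.K * S.r ^ 2) * (ρ * ‖u - u'‖) := by ring
      _ = S.C * ρ * ‖u - u'‖ := by rw [h10]; ring

theorem F_size (k : ℕ) {ρ : ℝ} (hρ : ρ ≤ S.ρ0) {u : W} (hu : ‖u‖ ≤ ρ) : ‖S.F k u‖ ≤ 2 * ρ := by
  have hρ00 : 0 ≤ ρ := (norm_nonneg _).trans hu
  have h1 := S.F_lip k ρ hρ u 0 hu (by rw [norm_zero]; exact hρ00)
  rw [F_at_zero] at h1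
  have h2 : (io (0 : W) : W × Z) = 0 := rfl
  rw [h2, sub_self, sub_zero, sub_zero] at h1
  have h3 : ‖S.F k u‖ ≤ ‖S.F k u - io u‖ + ‖(io u : W × Z)‖ := by
    have h30 := norm_add_le (S.F k u - io u) (io u : W × Z)
    rwa [sub_add_cancel] at h30
  rw [norm_io] at h3
  have h4 := S.Cρ0
  have h5 := S.C_nonneg
  have h6 : S.C * ρ ≤ 1 := by nlinarith
  have h7 : S.C * ρ * ‖u‖ ≤ 1 * ‖u‖ := mul_le_mul_of_nonneg_right h6 (norm_nonneg _)
  linarith

/-- the ratio -/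
noncomputable def μ : ℝ := (S.M + S.K * (2 * S.ρ0)) * S.r ^ 2

theorem μ_nonneg : 0 ≤ S.μ := by
  unfold μ
  have h1 := S.M1
  have h2 := S.K0
  have h3 := S.ρ0_pos
  positivity

theorem μ_lt : S.μ < 1 := by
  unfold μ
  have h1 := S.Kρ0
  have h2 := S.den_pos
  nlinarith

theorem F_cauchy (k : ℕ) : ∀ ρ : ℝ, ρ ≤ S.ρ0 → ∀ u : W, ‖u‖ ≤ ρ →
    ‖S.F (k + 1) u - S.F k u‖ ≤ S.K * S.r ^ 2 * ρ ^ 2 * S.μ ^ k := by
  induction k with
  | zero =>
    intro ρ hρ u hu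
    have hρ00 : 0 ≤ ρ := (norm_nonneg _).trans hu
    have hr0 := S.r0
    have hr1 := S.r1
    have hK := S.K0
    have h1 : ‖S.B u‖ ≤ S.r * ρ := (S.hB u).trans (mul_le_mul_of_nonneg_left hu hr0.le)
    have h2 := S.lip (S.r * ρ) (by nlinarith [S.ρ0_le, S.ρ0_pos]) (io (S.B u)) 0
      (by rw [norm_io]; exact h1) (by rw [norm_zero]; positivity)
    have h3 : (S.H (io (S.B u)) - S.H 0) - (S.A ((io (S.B u) : W × Z).1 - (0 : W × Z).1),
        S.D ((io (S.B u) : W × Z).2 - (0 : W × Z).2)) = S.F (0 + 1) u - S.F 0 u := by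
      rw [F_succ, F_zero, F_zero, S.H0, sub_zero]
      congr 1
      refine Prod.ext ?_ ?_
      · simp [io, S.hAB]
      · simp [io]
    rw [h3, sub_zero, norm_io] at h2
    calc _ ≤ S.K * (S.r * ρ) * ‖S.B u‖ := h2
      _ ≤ S.K * (S.r * ρ) * (S.r * ρ) := mul_le_mul_of_nonneg_left h1 (by positivity)
      _ = S.K * S.r ^ 2 * ρ ^ 2 * S.μ ^ 0 := by ring
  | succ k ih =>
    intro ρ hρ u hu
    have hρ00 : 0 ≤ ρ := (norm_nonneg _).trans hu
    have hr0 := S.r0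
    have hr1 := S.r1
    have hK := S.K0
    have hrρ : S.r * ρ ≤ S.ρ0 := by nlinarith [S.ρ0_pos]
    have h1 : ‖S.B u‖ ≤ S.r * ρ := (S.hB u).trans (mul_le_mul_of_nonneg_left hu hr0.le)
    have h2 := ih (S.r * ρ) hrρ (S.B u) h1
    have e1 : S.F (k + 1 + 1) u = S.H (S.F (k + 1) (S.B u)) := S.F_succ (k + 1) u
    have e2 : S.F (k + 1) u = S.H (S.F k (S.B u)) := S.F_succ k u
    rw [e1, e2]
    have h3 := S.lipH (ρ := 2 * S.ρ0) S.ρ0_le (h := S.F (k + 1) (S.B u)) (h' := S.F k (S.B u))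
      ((S.F_size (k + 1) hrρ h1).trans (by linarith)) ((S.F_size k hrρ h1).trans (by linarith))
    have h4 : 0 ≤ S.M + S.K * (2 * S.ρ0) := by
      have := S.M1
      have := S.ρ0_pos
      positivity
    refine h3.trans ((mul_le_mul_of_nonneg_left h2 h4).trans (le_of_eq ?_))
    unfold μ
    ring

variable [CompleteSpace W] [CompleteSpace Z]

theorem exists_lim_small {u : W} (hu : ‖u‖ ≤ S.ρ0) : ∃ q, Tendsto (fun k => S.F k u) atTop (𝓝 q) := by
  have h1 : CauchySeq (fun k => S.F k u) := by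
    refine cauchySeq_of_le_geometric S.μ (S.K * S.r ^ 2 * S.ρ0 ^ 2) S.μ_lt fun k => ?_
    rw [dist_comm, dist_eq_norm]
    exact S.F_cauchy k S.ρ0 le_rfl u hu
  exact cauchySeq_tendsto_of_complete h1

theorem exists_small (w : W) : ∃ m : ℕ, ‖S.B^[m] w‖ ≤ S.ρ0 := by
  have h1 : Tendsto (fun m : ℕ => S.r ^ m * ‖w‖) atTop (𝓝 (0 * ‖w‖)) :=
    (tendsto_pow_atTop_nhds_zero_of_lt_one S.r0.le S.r1).mul_const _
  rw [zero_mul] at h1
  obtain ⟨m, hm⟩ := (h1.eventually (ge_mem_nhds S.ρ0_pos)).exists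
  exact ⟨m, (S.norm_Bit m w).trans hm⟩

theorem iter_cont (m : ℕ) : Continuous (S.H^[m]) := S.cont.iterate m

theorem exists_lim (w : W) : ∃ q, Tendsto (fun k => S.F k w) atTop (𝓝 q) := by
  obtain ⟨m, hm⟩ := S.exists_small w
  obtain ⟨q, hq⟩ := S.exists_lim_small hm
  refine ⟨S.H^[m] q, ?_⟩
  rw [← tendsto_add_atTop_iff_nat m]
  have h1 : (fun k => S.F (k + m) w) = fun k => S.H^[m] (S.F k (S.B^[m] w)) := by
    funext k
    exact S.F_add k m w
  rw [h1]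
  exact ((S.iter_cont m).tendsto q).comp hq

/-- the parametrisation of the unstable manifold -/
noncomputable def Φ (w : W) : W × Z := Classical.choose (S.exists_lim w)

theorem Φ_spec (w : W) : Tendsto (fun k => S.F k w) atTop (𝓝 (S.Φ w)) :=
  Classical.choose_spec (S.exists_lim w)

theorem Φ_B (w : W) : S.H (S.Φ (S.B w)) = S.Φ w := by
  have h1 := (S.cont.tendsto _).comp (S.Φ_spec (S.B w))
  have h2 := (tendsto_add_atTop_iff_nat 1).2 (S.Φ_spec w)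
  have h3 : (fun k => S.F (k + 1) w) = S.H ∘ fun k => S.F k (S.B w) := by
    funext k
    exact S.F_succ k w
  rw [h3] at h2
  exact tendsto_nhds_unique h1 h2

theorem Φ_Bit (m : ℕ) (w : W) : S.H^[m] (S.Φ (S.B^[m] w)) = S.Φ w := by
  induction m generalizing w with
  | zero => rfl
  | succ m ih =>
    rw [Function.iterate_succ_apply, Function.iterate_succ_apply', S.Φ_B]
    exact ih w

theorem Φ_zero : S.Φ 0 = 0 := by
  refine tendsto_nhds_unique (S.Φ_spec 0) ?_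
  simp only [F_at_zero]
  exact tendsto_const_nhds

theorem Φ_lip {ρ : ℝ} (hρ : ρ ≤ S.ρ0) {u u' : W} (hu : ‖u‖ ≤ ρ) (hu' : ‖u'‖ ≤ ρ) :
    ‖(S.Φ u - io u) - (S.Φ u' - io u')‖ ≤ S.C * ρ * ‖u - u'‖ := by
  have h1 : Tendsto (fun k => ‖(S.F k u - io u) - (S.F k u' - io u')‖) atTop
      (𝓝 ‖(S.Φ u - io u) - (S.Φ u' - io u')‖) :=
    (((S.Φ_spec u).sub_const _).sub ((S.Φ_spec u').sub_const _)).norm
  exact le_of_tendsto' h1 fun k => S.F_lip k ρ hρ u u' hu hu'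

theorem Φ_near {ρ : ℝ} (hρ : ρ ≤ S.ρ0) {u : W} (hu : ‖u‖ ≤ ρ) : ‖S.Φ u - io u‖ ≤ S.C * ρ * ‖u‖ := by
  have hρ00 : 0 ≤ ρ := (norm_nonneg _).trans hu
  have h1 := S.Φ_lip hρ hu (u' := 0) (by rw [norm_zero]; exact hρ00)
  rw [Φ_zero] at h1
  have h2 : (io (0 : W) : W × Z) = 0 := rfl
  rwa [h2, sub_self, sub_zero, sub_zero] at h1

theorem Φ_size {ρ : ℝ} (hρ : ρ ≤ S.ρ0) {u : W} (hu : ‖u‖ ≤ ρ) : ‖S.Φ u‖ ≤ 2 * ρ :=
  le_of_tendsto' (S.Φ_spec u).norm fun k => S.F_size k hρ hu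

/-- the difference of two points of the unstable manifold near zero -/
theorem Φ_diff_le {ρ : ℝ} (hρ : ρ ≤ S.ρ0) {u u' : W} (hu : ‖u‖ ≤ ρ) (hu' : ‖u'‖ ≤ ρ) :
    ‖S.Φ u - S.Φ u'‖ ≤ 2 * ‖u - u'‖ := by
  have h1 := S.Φ_lip hρ hu hu'
  have h3 : ‖S.Φ u - S.Φ u'‖ ≤ ‖(S.Φ u - io u) - (S.Φ u' - io u')‖ +
      ‖(io u - io u' : W × Z)‖ := by
    have h4 := norm_add_le ((S.Φ u - io u) - (S.Φ u' - io u')) (io u - io u' : W × Z)
    have h5 : ((S.Φ u - io u) - (S.Φ u' - io u')) + (io u - io u' : W × Z) =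
      S.Φ u - S.Φ u' := by abel
    rwa [h5] at h4
  rw [io_sub, norm_io] at h3
  have h4 := S.Cρ0
  have h5 := S.C_nonneg
  have h6 : S.C * ρ ≤ 1 := by nlinarith
  have h7 : S.C * ρ * ‖u - u'‖ ≤ 1 * ‖u - u'‖ := mul_le_mul_of_nonneg_right h6 (norm_nonneg _)
  linarith

theorem Φ_continuous : Continuous S.Φ := by
  rw [continuous_iff_continuousAt]
  intro w
  obtain ⟨m, hm⟩ := S.exists_small w
  -- go one step further to be in the open ball
  have hm1 : ‖S.B^[m + 1] w‖ < S.ρ0 := by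
    rw [Function.iterate_succ_apply']
    refine (S.hB _).trans_lt ?_
    have h1 := S.r0
    have h2 := S.r1
    have h3 := S.ρ0_pos
    nlinarith [norm_nonneg (S.B^[m] w)]
  have hBc : Continuous (S.B^[m + 1]) := by
    have h1 : Continuous S.B := by
      refine (AddMonoidHomClass.continuous_of_bound S.B S.r fun x => S.hB x)
    exact h1.iterate (m + 1)
  have hloc : ContinuousAt S.Φ (S.B^[m + 1] w) := by
    have h1 : ∀ᶠ u in 𝓝 (S.B^[m + 1] w), ‖u‖ ≤ S.ρ0 :=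
      (continuous_norm.tendsto _).eventually (ge_mem_nhds hm1)
    rw [ContinuousAt, tendsto_iff_norm_sub_tendsto_zero]
    have h2 : Tendsto (fun u => 2 * ‖u - S.B^[m + 1] w‖) (𝓝 (S.B^[m + 1] w)) (𝓝 0) := by
      have h3 : Tendsto (fun u => 2 * ‖u - S.B^[m + 1] w‖) (𝓝 (S.B^[m + 1] w))
          (𝓝 (2 * ‖S.B^[m + 1] w - S.B^[m + 1] w‖)) := by
        have h4 : Continuous fun u => 2 * ‖u - S.B^[m + 1] w‖ := by fun_prop
        exact h4.tendsto _
      simpa using h3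
    refine squeeze_zero' (Eventually.of_forall fun u => norm_nonneg _) ?_ h2
    filter_upwards [h1] with u hu
    exact S.Φ_diff_le le_rfl hu hm1.le
  have h1 : S.Φ = S.H^[m + 1] ∘ S.Φ ∘ S.B^[m + 1] := by
    funext v
    exact (S.Φ_Bit (m + 1) v).symm
  rw [h1]
  exact (S.iter_cont (m + 1)).continuousAt.comp
    (ContinuousAt.comp (g := S.Φ) (f := S.B^[m + 1]) hloc hBc.continuousAt)

end UD

end Pool.Agent.Lib.MP_b43024_an
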