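import Pool.Agent.Lib.MP_b43024_an.Abs

/-!
# MP_b43024_an: every backward orbit which tends to `0` lies in the unstable manifold
-/

set_option autoImplicit false

namespace Pool.Agent.Lib.MP_b43024_an

open Filter Topology

set_option linter.unusedSectionVars false

namespace UD

variable {W Z : Type*} [NormedAddCommGroup W] [NormedSpace ℝ W] [NormedAddCommGroup Z]
    [NormedSpace ℝ Z] (S : UD W Z) [CompleteSpace W] [CompleteSpace Z]

theorem Φ_A (w : W) : S.H (S.Φ w) = S.Φ (S.A w) := by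
  rw [← S.Φ_B (S.A w), S.hBA]

theorem Φ_Ait (n : ℕ) (w : W) : S.H^[n] (S.Φ w) = S.Φ (S.A^[n] w) := by
  induction n generalizing w with
  | zero => rfl
  | succ n ih => rw [Function.iterate_succ_apply, Function.iterate_succ_apply, S.Φ_A, ih]

/-- the small radius -/
noncomputable def ρ1 : ℝ := min S.ρ0 (min (1 / (2 * (S.C + 1))) ((1 - S.θ) / (8 * (S.K + 1))))

theorem ρ1_pos : 0 < S.ρ1 := by
  have h1 := S.ρ0_pos
  have h2 := S.C_nonneg
  have h3 := S.K0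
  have h4 := S.θ1
  have h5 : 0 < 1 - S.θ := by linarith
  exact lt_min h1 (lt_min (by positivity) (by positivity))

theorem ρ1_le : S.ρ1 ≤ S.ρ0 := min_le_left _ _

theorem Cρ1 : S.C * S.ρ1 ≤ 1 / 2 := by
  have h2 := S.C_nonneg
  have h3 : S.ρ1 ≤ 1 / (2 * (S.C + 1)) := (min_le_right _ _).trans (min_le_left _ _)
  rw [le_div_iff₀ (by positivity)] at h3
  have := S.ρ1_pos
  nlinarith

theorem Kρ1 : 4 * S.K * S.ρ1 ≤ (1 - S.θ) / 2 := by
  have h2 := S.K0
  have h3 : S.ρ1 ≤ (1 - S.θ) / (8 * (S.K + 1)) := (min_le_right _ _).trans (min_le_right _ _)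
  rw [le_div_iff₀ (by positivity)] at h3
  have := S.ρ1_pos
  nlinarith

/-- the parametrisation is expanding near `0` -/
theorem Φ_fst_exp {u u' : W} (hu : ‖u‖ ≤ S.ρ1) (hu' : ‖u'‖ ≤ S.ρ1) :
    ‖u - u'‖ ≤ 2 * ‖(S.Φ u).1 - (S.Φ u').1‖ := by
  have h1 := S.Φ_lip S.ρ1_le hu hu'
  have h2 := S.Cρ1
  have h3 : ‖((S.Φ u - io u) - (S.Φ u' - io u')).1‖ ≤ S.C * S.ρ1 * ‖u - u'‖ :=
    (norm_fst_le _).trans h1
  have h4 : u - u' = ((S.Φ u).1 - (S.Φ u').1) - ((S.Φ u - io u) - (S.Φ u' - io u')).1 := by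
    simp only [io, Prod.fst_sub]
    abel
  have h5 : ‖u - u'‖ ≤ ‖(S.Φ u).1 - (S.Φ u').1‖ + ‖((S.Φ u - io u) - (S.Φ u' - io u')).1‖ := by
    conv_lhs => rw [h4]
    exact norm_sub_le _ _
  have h6 : S.C * S.ρ1 * ‖u - u'‖ ≤ 1 / 2 * ‖u - u'‖ :=
    mul_le_mul_of_nonneg_right h2 (norm_nonneg _)
  linarith

theorem Φ_inj_small {u u' : W} (hu : ‖u‖ ≤ S.ρ1) (hu' : ‖u'‖ ≤ S.ρ1) (h : S.Φ u = S.Φ u') :
    u = u' := by
  have h1 := S.Φ_fst_exp hu hu'
  rw [h, sub_self, norm_zero, mul_zero] at h1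
  exact sub_eq_zero.1 (norm_le_zero_iff.1 h1)

theorem Φ_snd_lip {u u' : W} (hu : ‖u‖ ≤ S.ρ1) (hu' : ‖u'‖ ≤ S.ρ1) :
    ‖(S.Φ u).2 - (S.Φ u').2‖ ≤ 1 / 2 * ‖u - u'‖ := by
  have h1 := S.Φ_lip S.ρ1_le hu hu'
  have h2 := S.Cρ1
  have h3 : ‖((S.Φ u - io u) - (S.Φ u' - io u')).2‖ ≤ S.C * S.ρ1 * ‖u - u'‖ :=
    (norm_snd_le _).trans h1
  have h4 : ((S.Φ u - io u) - (S.Φ u' - io u')).2 = (S.Φ u).2 - (S.Φ u').2 := by
    simp only [io, Prod.snd_sub, sub_zero]
  rw [h4] at h3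
  exact h3.trans (mul_le_mul_of_nonneg_right h2 (norm_nonneg _))

/-- every small element of `W` is the first component of a point of the unstable manifold -/
theorem exists_fst {w : W} {ε : ℝ} (hε : ε ≤ S.ρ1) (hw : ‖w‖ ≤ ε / 2) :
    ∃ u : W, ‖u‖ ≤ ε ∧ (S.Φ u).1 = w := by
  have hε0 : 0 ≤ ε := by linarith [norm_nonneg w]
  let f : W → W := fun u => (S.Φ u).1
  have hf : ApproximatesLinearOn f (ContinuousLinearMap.id ℝ W) (Metric.closedBall 0 ε)
      (1 / 2 : NNReal) := by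
    intro x hx y hy
    rw [mem_closedBall_zero_iff] at hx hy
    have h1 := S.Φ_lip S.ρ1_le (hx.trans hε) (hy.trans hε)
    have h2 := S.Cρ1
    have h3 : ‖((S.Φ x - io x) - (S.Φ y - io y)).1‖ ≤ S.C * S.ρ1 * ‖x - y‖ :=
      (norm_fst_le _).trans h1
    have h4 : f x - f y - (ContinuousLinearMap.id ℝ W) (x - y) =
        ((S.Φ x - io x) - (S.Φ y - io y)).1 := by
      simp only [io, Prod.fst_sub, ContinuousLinearMap.id_apply, f]
      abel
    rw [h4]
    refine h3.trans ?_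
    have h5 : ((1 / 2 : NNReal) : ℝ) = 1 / 2 := by norm_num
    rw [h5]
    exact mul_le_mul_of_nonneg_right h2 (norm_nonneg _)
  let inv : (ContinuousLinearMap.id ℝ W).NonlinearRightInverse :=
    { toFun := id
      nnnorm := 1
      bound' := fun y => by simp
      right_inv' := fun y => rfl }
  have h1 := hf.surjOn_closedBall_of_nonlinearRightInverse inv hε0 subset_rfl
  have h2 : f 0 = 0 := by
    change (S.Φ 0).1 = 0
    rw [S.Φ_zero]
    rfl
  have h3 : w ∈ Metric.closedBall (f 0) (((inv.nnnorm : ℝ)⁻¹ - ((1 / 2 : NNReal) : ℝ)) * ε) := by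
    rw [h2, mem_closedBall_zero_iff]
    have h4 : (inv.nnnorm : ℝ) = 1 := rfl
    rw [h4]
    refine hw.trans (le_of_eq ?_)
    norm_num
    ring
  obtain ⟨u, hu, hfu⟩ := h1 h3
  exact ⟨u, mem_closedBall_zero_iff.1 hu, hfu⟩

/-- the essential step: the distance to the unstable manifold contracts -/
theorem step {p q : W × Z} {u v : W} (hq : ‖q‖ ≤ 2 * S.ρ1) (hHq : S.H q = p) (hv : ‖v‖ ≤ S.ρ1)
    (hAv : ‖S.A v‖ ≤ S.ρ1) (hu : ‖u‖ ≤ S.ρ1) (hqv : (S.Φ v).1 = q.1) (hpu : (S.Φ u).1 = p.1) :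
    ‖(p - S.Φ u).2‖ ≤ (1 + S.θ) / 2 * ‖(q - S.Φ v).2‖ := by
  set e := ‖(q - S.Φ v).2‖ with he
  have he0 : 0 ≤ e := norm_nonneg _
  have hρ := S.ρ1_pos
  have hK := S.K0
  have h1 := S.lip (2 * S.ρ1) (by linarith [S.ρ1_le, S.ρ0_le]) q (S.Φ v) hq
    (S.Φ_size S.ρ1_le hv)
  have h2 : ‖q - S.Φ v‖ = e := by
    rw [Prod.norm_def, Prod.fst_sub, hqv, sub_self, norm_zero, ← he]
    exact max_eq_right he0
  rw [h2, hHq, S.Φ_A] at h1
  -- the first component
  have h3 : ‖(S.Φ (S.A v)).1 - (S.Φ u).1‖ ≤ S.K * (2 * S.ρ1) * e := by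
    have h30 := (norm_fst_le _).trans h1
    have h31 : ((p - S.Φ (S.A v)) - (S.A (q.1 - (S.Φ v).1), S.D (q.2 - (S.Φ v).2))).1 =
        (S.Φ u).1 - (S.Φ (S.A v)).1 := by
      simp only [Prod.fst_sub]
      rw [hqv, sub_self, map_zero, sub_zero, hpu]
    rw [h31] at h30
    rwa [norm_sub_rev]
  have h4 := S.Φ_fst_exp hAv hu
  have h5 := S.Φ_snd_lip hAv hu
  -- the second component
  have h6 : ‖(p - S.Φ (S.A v)).2‖ ≤ S.θ * e + S.K * (2 * S.ρ1) * e := by
    have h30 := (norm_snd_le _).trans h1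
    have h31 : ((p - S.Φ (S.A v)) - (S.A (q.1 - (S.Φ v).1), S.D (q.2 - (S.Φ v).2))).2 =
        (p - S.Φ (S.A v)).2 - S.D (q - S.Φ v).2 := by
      simp only [Prod.snd_sub]
    rw [h31] at h30
    have h7 : ‖(p - S.Φ (S.A v)).2‖ ≤ ‖(p - S.Φ (S.A v)).2 - S.D (q - S.Φ v).2‖ +
        ‖S.D (q - S.Φ v).2‖ := by
      have := norm_add_le ((p - S.Φ (S.A v)).2 - S.D (q - S.Φ v).2) (S.D (q - S.Φ v).2)
      rwa [sub_add_cancel] at this
    have h8 : ‖S.D (q - S.Φ v).2‖ ≤ S.θ * e := S.hD _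
    linarith
  have h7 : (p - S.Φ u).2 = (p - S.Φ (S.A v)).2 + ((S.Φ (S.A v)).2 - (S.Φ u).2) := by
    simp only [Prod.snd_sub]
    abel
  rw [h7]
  have h8 := norm_add_le (p - S.Φ (S.A v)).2 ((S.Φ (S.A v)).2 - (S.Φ u).2)
  have h9 := S.Kρ1
  have h10 : 4 * S.K * S.ρ1 * e ≤ (1 - S.θ) / 2 * e := mul_le_mul_of_nonneg_right h9 he0
  nlinarith

/-- **completeness** -/
theorem complete (p : ℕ → W × Z) (hp : ∀ n, S.H (p (n + 1)) = p n)
    (h0 : Tendsto p atTop (𝓝 0)) : ∃ w, ∀ n, p n = S.Φ (S.B^[n] w) := by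
  have hρ := S.ρ1_pos
  have hM := S.M1
  have hM0 : 0 < S.M := by linarith
  set η : ℝ := S.ρ1 / (2 * S.M) with hη
  have hη0 : 0 < η := by positivity
  have hη1 : 2 * S.M * η = S.ρ1 := by
    rw [hη]
    field_simp
  have hηρ : 2 * η ≤ S.ρ1 := by nlinarith
  obtain ⟨n0, hn0⟩ : ∃ n0, ∀ n, n0 ≤ n → ‖p n‖ ≤ η := by
    have h1 := (tendsto_zero_iff_norm_tendsto_zero.1 h0).eventually (ge_mem_nhds hη0)
    exact eventually_atTop.1 h1
  have hex : ∀ n, ∃ u : W, ‖u‖ ≤ 2 * η ∧ (S.Φ u).1 = (p (n0 + n)).1 := by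
    intro n
    refine S.exists_fst hηρ ?_
    have h1 := (norm_fst_le (p (n0 + n))).trans (hn0 (n0 + n) (by omega))
    linarith
  choose u hu hu1 using hex
  set z : ℕ → ℝ := fun n => ‖(p (n0 + n) - S.Φ (u n)).2‖ with hz
  have hAu : ∀ n, ‖S.A (u n)‖ ≤ S.ρ1 := by
    intro n
    refine (S.hA _).trans ?_
    rw [← hη1]
    have := mul_le_mul_of_nonneg_left (hu n) hM0.le
    linarith
  have hstep : ∀ n, z n ≤ (1 + S.θ) / 2 * z (n + 1) := by
    intro n
    refine S.step (p := p (n0 + n)) (q := p (n0 + (n + 1))) ?_ (hp _) ((hu _).trans hηρ) (hAu _)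
      ((hu _).trans hηρ) (hu1 _) (hu1 _)
    have := hn0 (n0 + (n + 1)) (by omega)
    linarith
  have hbound : ∀ n, z n ≤ 3 * S.ρ1 := by
    intro n
    have h1 : z n ≤ ‖p (n0 + n) - S.Φ (u n)‖ := norm_snd_le _
    have h2 := norm_sub_le (p (n0 + n)) (S.Φ (u n))
    have h3 := S.Φ_size S.ρ1_le ((hu n).trans hηρ)
    have h4 := hn0 (n0 + n) (by omega)
    linarith
  have hθ0 := S.θ0
  have hθ1 := S.θ1
  have hit : ∀ n m, z n ≤ ((1 + S.θ) / 2) ^ m * z (n + m) := by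
    intro n m
    induction m with
    | zero => simp
    | succ m ih =>
      refine ih.trans ?_
      rw [pow_succ, mul_assoc]
      exact mul_le_mul_of_nonneg_left (hstep (n + m)) (by positivity)
  have hz0 : ∀ n, z n ≤ 0 := by
    intro n
    have h1 : Tendsto (fun m : ℕ => ((1 + S.θ) / 2) ^ m * (3 * S.ρ1)) atTop
        (𝓝 (0 * (3 * S.ρ1))) :=
      (tendsto_pow_atTop_nhds_zero_of_lt_one (by linarith) (by linarith)).mul_const _
    rw [zero_mul] at h1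
    refine ge_of_tendsto' h1 fun m => (hit n m).trans ?_
    exact mul_le_mul_of_nonneg_left (hbound _) (by positivity)
  have heq : ∀ n, p (n0 + n) = S.Φ (u n) := by
    intro n
    have h1 : (p (n0 + n) - S.Φ (u n)).2 = 0 := norm_le_zero_iff.1 (hz0 n)
    refine Prod.ext ?_ ?_
    · exact (hu1 n).symm
    · exact sub_eq_zero.1 h1
  have hun : ∀ n, u n = S.A (u (n + 1)) := by
    intro n
    refine S.Φ_inj_small ((hu n).trans hηρ) (hAu _) ?_
    rw [← S.Φ_A, ← heq n, ← heq (n + 1)]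
    exact (hp _).symm
  have huB : ∀ n, u n = S.B^[n] (u 0) := by
    intro n
    induction n with
    | zero => rfl
    | succ n ih => rw [Function.iterate_succ_apply', ← ih, hun n, S.hBA]
  have hBAn : ∀ m (v : W), S.B^[m] (S.A^[m] v) = v := by
    intro m
    induction m with
    | zero => intro v; rfl
    | succ m ih =>
      intro v
      rw [Function.iterate_succ_apply, Function.iterate_succ_apply', S.hBA, ih]
  have hback : ∀ m n, S.H^[m] (p (n + m)) = p n := by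
    intro m
    induction m with
    | zero => intro n; rfl
    | succ m ih =>
      intro n
      rw [Function.iterate_succ_apply, ← add_assoc, hp, ih]
  refine ⟨S.A^[n0] (u 0), fun n => ?_⟩
  rcases le_total n0 n with h | h
  · obtain ⟨m, rfl⟩ := Nat.exists_eq_add_of_le h
    rw [heq m, huB m, add_comm n0 m, Function.iterate_add_apply, hBAn]
  · obtain ⟨m, hm⟩ := Nat.exists_eq_add_of_le h
    have h1 := hback m n
    rw [← hm] at h1
    have h2 : p n0 = S.Φ (S.B^[n0] (S.A^[n0] (u 0))) := by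
      rw [hBAn]
      exact heq 0
    rw [← h1, h2]
    have h3 : S.B^[n0] (S.A^[n0] (u 0)) = S.B^[m] (S.B^[n] (S.A^[n0] (u 0))) := by
      rw [← Function.iterate_add_apply, hm, add_comm]
    rw [h3, S.Φ_Bit]

/-- the parametrisation is injective if `H` is injective on its range -/
theorem Φ_injective {s : Set (W × Z)} (hs : Set.InjOn S.H s) (hΦ : ∀ w, S.Φ w ∈ s) {w w' : W}
    (h : S.Φ w = S.Φ w') : w = w' := by
  have h1 : ∀ n, S.Φ (S.B^[n] w) = S.Φ (S.B^[n] w') := by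
    intro n
    induction n with
    | zero => exact h
    | succ n ih =>
      rw [Function.iterate_succ_apply', Function.iterate_succ_apply']
      apply hs (hΦ _) (hΦ _)
      rw [S.Φ_B, S.Φ_B, ih]
  have h2 : ∀ v : W, ∀ᶠ n : ℕ in atTop, ‖S.B^[n] v‖ ≤ S.ρ1 := by
    intro v
    have h1 : Tendsto (fun m : ℕ => S.r ^ m * ‖v‖) atTop (𝓝 (0 * ‖v‖)) :=
      (tendsto_pow_atTop_nhds_zero_of_lt_one S.r0.le S.r1).mul_const _
    rw [zero_mul] at h1
    filter_upwards [h1.eventually (ge_mem_nhds S.ρ1_pos)] with m hm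
    exact (S.norm_Bit m v).trans hm
  obtain ⟨n, hn, hn'⟩ := ((h2 w).and (h2 w')).exists
  have h3 := S.Φ_inj_small hn hn' (h1 n)
  have h4 : ∀ m (v : W), S.A^[m] (S.B^[m] v) = v := by
    intro m
    induction m with
    | zero => intro v; rfl
    | succ m ih =>
      intro v
      rw [Function.iterate_succ_apply, Function.iterate_succ_apply', S.hAB, ih]
  rw [← h4 n w, h3, h4]

end UD

end Pool.Agent.Lib.MP_b43024_an
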