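import Mathlib

/-!
# MP_b43024_an: the limits of bounded and of unbounded solutions
-/

set_option autoImplicit false

namespace Pool.Agent.Lib.MP_b43024_an

open Filter Topology

/-- the recurrence, with the indices shifted by two -/
def IsSol (x : ℕ → ℝ) : Prop :=
  (∀ n, 0 < x n) ∧ ∀ n, x (n + 3) = 2 * x n / (1 + x (n + 2) + x (n + 1))

theorem IsSol.den {x : ℕ → ℝ} (h : IsSol x) (n : ℕ) : 1 < 1 + x (n + 2) + x (n + 1) := by
  have h1 := h.1 (n + 2)
  have h2 := h.1 (n + 1)
  linarith

/-- bounded solutions satisfy the criterion: the converse inequalities are preserved -/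
theorem IsSol.bounded_of {x : ℕ → ℝ} (h : IsSol x)
    (hc : ∀ n, x (n + 2) < 1 ∨ 1 ≤ x (n + 1) + x n) : ∃ C, ∀ n, x n ≤ C := by
  have h1 : ∀ n, x (n + 3) ≤ max 1 (x n) := by
    intro n
    rcases hc (n + 1) with h2 | h2
    · exact h2.le.trans (le_max_left _ _)
    · refine le_trans ?_ (le_max_right _ _)
      rw [h.2 n, div_le_iff₀ (by linarith [h.den n])]
      have h3 : 1 ≤ x (n + 2) + x (n + 1) := h2
      nlinarith [h.1 n]
  let C := max 1 (max (x 0) (max (x 1) (x 2)))
  have h2 : ∀ n, x n ≤ C ∧ x (n + 1) ≤ C ∧ x (n + 2) ≤ C := by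
    intro n
    induction n with
    | zero =>
      refine ⟨?_, ?_, ?_⟩
      · exact (le_max_left _ _).trans (le_max_right _ _)
      · exact (le_max_left _ _).trans ((le_max_right _ _).trans (le_max_right _ _))
      · exact (le_max_right _ _).trans ((le_max_right _ _).trans (le_max_right _ _))
    | succ n ih =>
      exact ⟨ih.2.1, ih.2.2, (h1 n).trans (max_le (le_max_left _ _) ih.1)⟩
  exact ⟨C, fun n => (h2 n).1⟩

/-- the growing alternative -/
theorem IsSol.grow {x : ℕ → ℝ} (h : IsSol x) {n : ℕ} (h1 : 1 ≤ x (n + 2))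
    (h2 : x (n + 1) + x n < 1) :
    Tendsto (fun k => x (3 * k + (n + 2))) atTop atTop ∧
      Tendsto (fun k => x (3 * k + (n + 2) + 1)) atTop (𝓝 0) ∧
      Tendsto (fun k => x (3 * k + (n + 2) + 2)) atTop (𝓝 0) := by
  set q : ℝ := 2 / (1 + x (n + 1) + x n) with hq
  have ha := h.1 n
  have hb := h.1 (n + 1)
  have hq1 : 1 < q := by
    rw [hq, lt_div_iff₀ (by linarith)]
    linarith
  have key : ∀ k, x (3 * k + n) ≤ x n ∧ x (3 * k + (n + 1)) ≤ x (n + 1) ∧
      q ^ k ≤ x (3 * k + (n + 2)) := by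
    intro k
    induction k with
    | zero => simpa using h1
    | succ k ih =>
      obtain ⟨i1, i2, i3⟩ := ih
      have hqk : 1 ≤ q ^ k := one_le_pow₀ hq1.le
      have p0 := h.1 (3 * k + n)
      have p1 := h.1 (3 * k + (n + 1))
      have p2 := h.1 (3 * k + (n + 2))
      have p3 := h.1 (3 * k + n + 3)
      have p4 := h.1 (3 * k + (n + 1) + 3)
      have r3 := h.2 (3 * k + n)
      have r4 := h.2 (3 * k + (n + 1))
      have r5 := h.2 (3 * k + (n + 2))
      have e1 : 3 * (k + 1) + n = 3 * k + n + 3 := by ring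
      have e2 : 3 * (k + 1) + (n + 1) = 3 * k + (n + 1) + 3 := by ring
      have e3 : 3 * (k + 1) + (n + 2) = 3 * k + (n + 2) + 3 := by ring
      have e4 : 3 * k + n + 2 = 3 * k + (n + 2) := by ring
      have e5 : 3 * k + n + 1 = 3 * k + (n + 1) := by ring
      have e6 : 3 * k + (n + 1) + 2 = 3 * k + n + 3 := by ring
      have e7 : 3 * k + (n + 1) + 1 = 3 * k + (n + 2) := by ring
      have e8 : 3 * k + (n + 2) + 2 = 3 * k + (n + 1) + 3 := by ring
      have e9 : 3 * k + (n + 2) + 1 = 3 * k + n + 3 := by ring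
      rw [e4, e5] at r3
      rw [e6, e7] at r4
      rw [e8, e9] at r5
      rw [e1, e2, e3]
      have j1 : x (3 * k + n + 3) ≤ x n := by
        rw [r3, div_le_iff₀ (by linarith)]
        nlinarith
      have j2 : x (3 * k + (n + 1) + 3) ≤ x (n + 1) := by
        rw [r4, div_le_iff₀ (by linarith)]
        nlinarith
      refine ⟨j1, j2, ?_⟩
      rw [r5, pow_succ, hq, mul_comm, ← hq]
      have j3 : 1 + x (3 * k + (n + 1) + 3) + x (3 * k + n + 3) ≤ 1 + x (n + 1) + x n := by
        linarith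
      calc q * q ^ k ≤ q * x (3 * k + (n + 2)) := mul_le_mul_of_nonneg_left i3 (by linarith)
        _ = 2 * x (3 * k + (n + 2)) / (1 + x (n + 1) + x n) := by rw [hq]; ring
        _ ≤ _ := by
          apply div_le_div_of_nonneg_left (by positivity) (by linarith) j3
  have hinf : Tendsto (fun k => x (3 * k + (n + 2))) atTop atTop :=
    tendsto_atTop_mono (fun k => (key k).2.2) (tendsto_pow_atTop_atTop_of_one_lt hq1)
  refine ⟨hinf, ?_, ?_⟩
  · have h3 : Tendsto (fun k => 2 * x n / x (3 * k + (n + 2))) atTop (𝓝 0) :=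
      hinf.const_div_atTop _
    refine squeeze_zero (fun k => (h.1 _).le) (fun k => ?_) h3
    have e1 : 3 * k + (n + 2) + 1 = 3 * k + n + 3 := by ring
    have e2 : 3 * k + n + 2 = 3 * k + (n + 2) := by ring
    rw [e1, h.2, e2]
    have p2 := h.1 (3 * k + (n + 2))
    have p1 := h.1 (3 * k + n + 1)
    have p0 := h.1 (3 * k + n)
    have i1 := (key k).1
    exact div_le_div₀ (by linarith) (by linarith) p2 (by linarith)
  · have h3 : Tendsto (fun k => 2 * x (n + 1) / x (3 * k + (n + 2))) atTop (𝓝 0) :=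
      hinf.const_div_atTop _
    refine squeeze_zero (fun k => (h.1 _).le) (fun k => ?_) h3
    have e1 : 3 * k + (n + 2) + 2 = 3 * k + (n + 1) + 3 := by ring
    have e2 : 3 * k + (n + 1) + 1 = 3 * k + (n + 2) := by ring
    rw [e1, h.2, e2]
    have p2 := h.1 (3 * k + (n + 2))
    have p1 := h.1 (3 * k + (n + 1) + 2)
    have p0 := h.1 (3 * k + (n + 1))
    have i1 := (key k).2.1
    exact div_le_div₀ (by linarith) (by linarith) p2 (by linarith)

/-- **The criterion.** -/
theorem IsSol.bounded_iff {x : ℕ → ℝ} (h : IsSol x) :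
    (∃ C, ∀ n, x n ≤ C) ↔ ∀ n, x (n + 2) < 1 ∨ 1 ≤ x (n + 1) + x n := by
  refine ⟨?_, h.bounded_of⟩
  rintro ⟨C, hC⟩ n
  by_contra hcon
  push Not at hcon
  obtain ⟨h1, -, -⟩ := h.grow hcon.1 hcon.2
  obtain ⟨k, hk⟩ := (h1.eventually (eventually_gt_atTop C)).exists
  exact absurd (hC _) (not_le.2 hk)

/-- shift of the residue class -/
theorem tendsto_class {x : ℕ → ℝ} {F : Filter ℝ} (m j : ℕ)
    (h : Tendsto (fun k => x (3 * k + (3 * m + j))) atTop F) :
    Tendsto (fun k => x (3 * k + j)) atTop F := by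
  rw [← tendsto_add_atTop_iff_nat m]
  have e : (fun k => x (3 * (k + m) + j)) = fun k => x (3 * k + (3 * m + j)) := by
    funext k
    congr 1
    ring
  rw [e]
  exact h

/-- **The unbounded solutions.** -/
theorem IsSol.unbounded {x : ℕ → ℝ} (h : IsSol x) (hu : ¬ ∃ C, ∀ n, x n ≤ C) :
    ∃ j < 3, Tendsto (fun k => x (3 * k + j)) atTop atTop ∧
      Tendsto (fun k => x (3 * k + j + 1)) atTop (𝓝 0) ∧
      Tendsto (fun k => x (3 * k + j + 2)) atTop (𝓝 0) := by
  rw [h.bounded_iff] at hu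
  push Not at hu
  obtain ⟨n, h1, h2⟩ := hu
  obtain ⟨g1, g2, g3⟩ := h.grow h1 h2
  refine ⟨(n + 2) % 3, Nat.mod_lt _ (by norm_num), ?_, ?_, ?_⟩
  · apply tendsto_class ((n + 2) / 3)
    rwa [Nat.div_add_mod]
  · apply tendsto_class (x := fun i => x (i + 1)) ((n + 2) / 3)
    rwa [Nat.div_add_mod]
  · apply tendsto_class (x := fun i => x (i + 2)) ((n + 2) / 3)
    rwa [Nat.div_add_mod]

/-! ## The Lyapunov function -/

/-- the Lyapunov function -/
def V (x : ℕ → ℝ) (n : ℕ) : ℝ :=
  x n + x (n + 1) + x (n + 2) - x n * x (n + 1) - x (n + 1) * x (n + 2) - x n * x (n + 2)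

theorem IsSol.V_succ {x : ℕ → ℝ} (h : IsSol x) (n : ℕ) :
    V x (n + 1) - V x n = x n * (1 - x (n + 1) - x (n + 2)) ^ 2 / (1 + x (n + 2) + x (n + 1)) := by
  have h1 := h.den n
  have h2 : 1 + x (n + 2) + x (n + 1) ≠ 0 := by linarith
  simp only [V]
  rw [show n + 1 + 1 = n + 2 from rfl, show n + 1 + 2 = n + 3 from rfl, h.2 n]
  field_simp
  ring

theorem IsSol.V_mono {x : ℕ → ℝ} (h : IsSol x) : Monotone (V x) := by
  refine monotone_nat_of_le_succ fun n => ?_
  have h1 := h.V_succ n
  have h2 : 0 ≤ x n * (1 - x (n + 1) - x (n + 2)) ^ 2 / (1 + x (n + 2) + x (n + 1)) := by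
    have := h.1 n
    have := h.den n
    positivity
  linarith

theorem two_lim {a : ℕ → ℝ} {w : ℝ} (hw : 0 < w)
    (h1 : Tendsto (fun k => a k * (a k - w)) atTop (𝓝 0))
    (h2 : Tendsto (fun k => a (k + 1) - a k) atTop (𝓝 0)) :
    Tendsto a atTop (𝓝 0) ∨ Tendsto a atTop (𝓝 w) := by
  have e1 : ∀ᶠ k in atTop, |a k * (a k - w)| < w ^ 2 / 16 := by
    have := h1.abs
    rw [abs_zero] at this
    exact this.eventually (gt_mem_nhds (by positivity))
  have e2 : ∀ᶠ k in atTop, |a (k + 1) - a k| < w / 4 := by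
    have := h2.abs
    rw [abs_zero] at this
    exact this.eventually (gt_mem_nhds (by positivity))
  obtain ⟨N, hN⟩ := eventually_atTop.1 (e1.and e2)
  have hor : ∀ k, N ≤ k → |a k| < w / 4 ∨ |a k - w| < w / 4 := by
    intro k hk
    by_contra hcon
    push Not at hcon
    have h3 := (hN k hk).1
    rw [abs_mul] at h3
    have h4 : w / 4 * (w / 4) ≤ |a k| * |a k - w| :=
      mul_le_mul hcon.1 hcon.2 (by positivity) (abs_nonneg _)
    nlinarith
  rcases hor N le_rfl with h3 | h3
  · left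
    have h4 : ∀ k, N ≤ k → |a k| < w / 4 := by
      intro k hk
      induction k, hk using Nat.le_induction with
      | base => exact h3
      | succ k hk ih =>
        rcases hor (k + 1) (by omega) with h5 | h5
        · exact h5
        · exfalso
          have h6 := (hN k hk).2
          rw [abs_lt] at h5 h6 ih
          linarith
    have h5 : Tendsto (fun k => 4 / (3 * w) * |a k * (a k - w)|) atTop (𝓝 0) := by
      have := (h1.abs).const_mul (4 / (3 * w))
      rwa [abs_zero, mul_zero] at this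
    refine squeeze_zero_norm' ?_ h5
    filter_upwards [eventually_ge_atTop N] with k hk
    have h6 := h4 k hk
    have h7 : 3 * w / 4 ≤ |a k - w| := by
      rw [abs_lt] at h6
      rw [abs_of_neg (by linarith)]
      linarith
    rw [Real.norm_eq_abs, abs_mul]
    have h8 : |a k| * (3 * w / 4) ≤ |a k| * |a k - w| :=
      mul_le_mul_of_nonneg_left h7 (abs_nonneg _)
    have h9 : |a k| = 4 / (3 * w) * (|a k| * (3 * w / 4)) := by
      field_simp
    rw [h9]
    apply mul_le_mul_of_nonneg_left _ (by positivity)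
    rwa [← h9]
  · right
    have h4 : ∀ k, N ≤ k → |a k - w| < w / 4 := by
      intro k hk
      induction k, hk using Nat.le_induction with
      | base => exact h3
      | succ k hk ih =>
        rcases hor (k + 1) (by omega) with h5 | h5
        · exfalso
          have h6 := (hN k hk).2
          rw [abs_lt] at h5 h6 ih
          linarith
        · exact h5
    have h5 : Tendsto (fun k => 4 / (3 * w) * |a k * (a k - w)|) atTop (𝓝 0) := by
      have := (h1.abs).const_mul (4 / (3 * w))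
      rwa [abs_zero, mul_zero] at this
    rw [tendsto_iff_norm_sub_tendsto_zero]
    refine squeeze_zero' (Eventually.of_forall fun k => norm_nonneg _) ?_ h5
    filter_upwards [eventually_ge_atTop N] with k hk
    have h6 := h4 k hk
    have h7 : 3 * w / 4 ≤ |a k| := by
      rw [abs_lt] at h6
      rw [abs_of_pos (by linarith)]
      linarith
    rw [Real.norm_eq_abs, abs_mul]
    have h8 : (3 * w / 4) * |a k - w| ≤ |a k| * |a k - w| :=
      mul_le_mul_of_nonneg_right h7 (abs_nonneg _)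
    have h9 : |a k - w| = 4 / (3 * w) * ((3 * w / 4) * |a k - w|) := by
      field_simp
    calc |a k - w| = 4 / (3 * w) * ((3 * w / 4) * |a k - w|) := h9
      _ ≤ _ := mul_le_mul_of_nonneg_left h8 (by positivity)

/-- a sequence converges if the three subsequences converge to the same limit -/
theorem tendsto_of_classes {x : ℕ → ℝ} {l : ℝ} (h0 : Tendsto (fun k => x (3 * k)) atTop (𝓝 l))
    (h1 : Tendsto (fun k => x (3 * k + 1)) atTop (𝓝 l))
    (h2 : Tendsto (fun k => x (3 * k + 2)) atTop (𝓝 l)) : Tendsto x atTop (𝓝 l) := by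
  rw [Metric.tendsto_atTop] at *
  intro ε hε
  obtain ⟨N0, H0⟩ := h0 ε hε
  obtain ⟨N1, H1⟩ := h1 ε hε
  obtain ⟨N2, H2⟩ := h2 ε hε
  refine ⟨3 * (N0 + N1 + N2) + 3, fun n hn => ?_⟩
  have h3 := Nat.div_add_mod n 3
  have h4 := Nat.mod_lt n (show 0 < 3 by norm_num)
  have h5 : n % 3 = 0 ∨ n % 3 = 1 ∨ n % 3 = 2 := by omega
  rcases h5 with h5 | h5 | h5
  · rw [← h3, h5, add_zero]
    exact H0 _ (by omega)
  · rw [← h3, h5]
    exact H1 _ (by omega)
  · rw [← h3, h5]
    exact H2 _ (by omega)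

/-- **The bounded solutions.** -/
theorem IsSol.bounded {x : ℕ → ℝ} (h : IsSol x) (hb : ∃ C, ∀ n, x n ≤ C) :
    Tendsto x atTop (𝓝 (1 / 2)) ∨ ∃ j < 3, Tendsto (fun k => x (3 * k + j)) atTop (𝓝 0) ∧
      Tendsto (fun k => x (3 * k + j + 1)) atTop (𝓝 1) ∧
      Tendsto (fun k => x (3 * k + j + 2)) atTop (𝓝 1) := by
  obtain ⟨C, hC⟩ := hb
  have hC0 : 0 < C := (h.1 0).trans_le (hC 0)
  have hsh : ∀ {y : ℕ → ℝ} {l : ℝ} (m : ℕ), Tendsto y atTop (𝓝 l) →
      Tendsto (fun n => y (n + m)) atTop (𝓝 l) := fun m hy => (tendsto_add_atTop_iff_nat m).2 hy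
  -- bounded times null
  have hbn : ∀ (y z : ℕ → ℝ), (∀ n, |y n| ≤ C) → Tendsto z atTop (𝓝 0) →
      Tendsto (fun n => y n * z n) atTop (𝓝 0) := by
    intro y z hy hz
    have h1 : Tendsto (fun n => C * |z n|) atTop (𝓝 0) := by
      have := hz.abs.const_mul C
      rwa [abs_zero, mul_zero] at this
    refine squeeze_zero_norm (fun n => ?_) h1
    rw [Real.norm_eq_abs, abs_mul]
    exact mul_le_mul_of_nonneg_right (hy n) (abs_nonneg _)
  have habs : ∀ n, |x n| ≤ C := fun n => by
    rw [abs_of_pos (h.1 n)]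
    exact hC n
  -- convergence of V
  have hVb : ∀ n, V x n ≤ 3 * C := by
    intro n
    have a0 := h.1 n
    have a1 := h.1 (n + 1)
    have a2 := h.1 (n + 2)
    have b0 := hC n
    have b1 := hC (n + 1)
    have b2 := hC (n + 2)
    have p1 := mul_pos a0 a1
    have p2 := mul_pos a1 a2
    have p3 := mul_pos a0 a2
    simp only [V]
    linarith
  obtain ⟨v, hv⟩ : ∃ v, Tendsto (V x) atTop (𝓝 v) :=
    ⟨_, tendsto_atTop_ciSup h.V_mono ⟨3 * C, by rintro _ ⟨n, rfl⟩; exact hVb n⟩⟩
  have hVd : Tendsto (fun n => V x (n + 1) - V x n) atTop (𝓝 0) := by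
    have := (hsh 1 hv).sub hv
    rwa [sub_self] at this
  -- the error terms
  set f : ℕ → ℝ := fun n => x n * (1 - x (n + 1) - x (n + 2)) with hf
  have hf2 : Tendsto (fun n => (f n) ^ 2) atTop (𝓝 0) := by
    have h1 : Tendsto (fun n => C * (1 + 2 * C) * (V x (n + 1) - V x n)) atTop (𝓝 0) := by
      have := hVd.const_mul (C * (1 + 2 * C))
      rwa [mul_zero] at this
    refine squeeze_zero (fun n => sq_nonneg _) (fun n => ?_) h1
    have a0 := h.1 n
    have b0 := hC n
    have b1 := hC (n + 1)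
    have b2 := hC (n + 2)
    have d := h.den n
    rw [h.V_succ n]
    have h2 : (f n) ^ 2 = x n * (x n * (1 - x (n + 1) - x (n + 2)) ^ 2) := by
      simp only [hf]
      ring
    have h3 : 0 ≤ x n * (1 - x (n + 1) - x (n + 2)) ^ 2 := by positivity
    rw [h2, mul_assoc]
    refine mul_le_mul b0 ?_ h3 hC0.le
    rw [mul_div_assoc', le_div_iff₀ (by linarith)]
    have h4 : 1 + x (n + 2) + x (n + 1) ≤ 1 + 2 * C := by linarith
    calc _ ≤ x n * (1 - x (n + 1) - x (n + 2)) ^ 2 * (1 + 2 * C) :=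
          mul_le_mul_of_nonneg_left h4 h3
      _ = _ := by ring
  have hf0 : Tendsto f atTop (𝓝 0) := by
    rw [tendsto_zero_iff_abs_tendsto_zero]
    have h1 := hf2.sqrt
    rw [Real.sqrt_zero] at h1
    refine h1.congr fun n => ?_
    rw [Real.sqrt_sq_eq_abs]
    rfl
  have hd : Tendsto (fun n => x (n + 3) - x n) atTop (𝓝 0) := by
    have h1 := hf0.abs
    rw [abs_zero] at h1
    refine squeeze_zero_norm (fun n => ?_) h1
    have d := h.den n
    have h2 : x (n + 3) - x n = f n / (1 + x (n + 2) + x (n + 1)) := by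
      have h3 : 1 + x (n + 2) + x (n + 1) ≠ 0 := by linarith
      rw [h.2 n, eq_div_iff h3, sub_mul, div_mul_cancel₀ _ h3]
      simp only [hf]
      ring
    rw [h2, Real.norm_eq_abs, abs_div, abs_of_pos (show 0 < 1 + x (n + 2) + x (n + 1) by linarith)]
    exact div_le_self (abs_nonneg _) d.le
  -- the symmetric forms
  have g1 : Tendsto (fun n => x (n + 1) * (1 - x (n + 2) - x n)) atTop (𝓝 0) := by
    have h1 := (hsh 1 hf0).add (hbn (fun n => x (n + 1)) _ (fun n => habs _) hd)
    rw [add_zero] at h1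
    refine h1.congr fun n => ?_
    simp only [hf]
    rw [show n + 1 + 1 = n + 2 from rfl, show n + 1 + 2 = n + 3 from rfl]
    ring
  have g2 : Tendsto (fun n => x (n + 2) * (1 - x n - x (n + 1))) atTop (𝓝 0) := by
    have hdd := hd.add (hsh 1 hd)
    rw [add_zero] at hdd
    have h1 := (hsh 2 hf0).add (hbn (fun n => x (n + 2)) _ (fun n => habs _) hdd)
    rw [add_zero] at h1
    refine h1.congr fun n => ?_
    simp only [hf]
    rw [show n + 2 + 1 = n + 3 from rfl, show n + 2 + 2 = n + 4 from rfl,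
      show n + 1 + 3 = n + 4 from rfl]
    ring
  set S : ℕ → ℝ := fun n => x n + x (n + 1) + x (n + 2) with hS
  have hSlim : Tendsto S atTop (𝓝 (2 * v)) := by
    have h1 := (hv.const_mul 2).sub ((hf0.add g1).add g2)
    rw [add_zero, add_zero, sub_zero] at h1
    refine h1.congr fun n => ?_
    simp only [hf, hS, V]
    ring
  set w : ℝ := 2 * v - 1 with hw
  have hxw : Tendsto (fun n => x n * (x n - w)) atTop (𝓝 0) := by
    have h0 : Tendsto (fun n => S n - 2 * v) atTop (𝓝 0) := by
      have := hSlim.sub_const (2 * v)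
      rwa [sub_self] at this
    have h1 := hf0.add (hbn x _ habs h0)
    rw [add_zero] at h1
    refine h1.congr fun n => ?_
    simp only [hf, hS, hw]
    ring
  have hwpos : 0 < w := by
    by_contra hcon
    push Not at hcon
    have hx2 : Tendsto (fun n => x n ^ 2) atTop (𝓝 0) := by
      refine squeeze_zero (fun n => sq_nonneg _) (fun n => ?_) hxw
      nlinarith [h.1 n]
    have hx0 : Tendsto x atTop (𝓝 0) := by
      rw [tendsto_zero_iff_abs_tendsto_zero]
      have h1 := hx2.sqrt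
      rw [Real.sqrt_zero] at h1
      refine h1.congr fun n => ?_
      rw [Real.sqrt_sq_eq_abs]
      rfl
    have hS0 : Tendsto S atTop (𝓝 0) := by
      have := (hx0.add (hsh 1 hx0)).add (hsh 2 hx0)
      rwa [add_zero, add_zero] at this
    have hv0 : 2 * v = 0 := tendsto_nhds_unique hSlim hS0
    have hV0 : ∀ n, V x n ≤ v := fun n => h.V_mono.ge_of_tendsto hv n
    obtain ⟨n, hn⟩ := (hS0.eventually (gt_mem_nhds (show (0 : ℝ) < 1 by norm_num))).exists
    have a0 := h.1 n
    have a1 := h.1 (n + 1)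
    have a2 := h.1 (n + 2)
    have h1 := hV0 n
    simp only [V] at h1
    simp only [hS] at hn
    nlinarith [mul_pos a0 a1, mul_pos a1 a2, mul_pos a0 a2, sq_nonneg (x n), sq_nonneg (x (n + 1)),
      sq_nonneg (x (n + 2))]
  -- the classes
  have hcl : ∀ j, Tendsto (fun k => x (3 * k + j)) atTop (𝓝 0) ∨
      Tendsto (fun k => x (3 * k + j)) atTop (𝓝 w) := by
    intro j
    have hmul : Tendsto (fun k : ℕ => 3 * k + j) atTop atTop :=
      tendsto_atTop_mono (fun k => by simp only [id]; omega) tendsto_id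
    refine two_lim hwpos (hxw.comp hmul) ?_
    refine (hd.comp hmul).congr fun k => ?_
    simp only [Function.comp]
    rw [show 3 * k + j + 3 = 3 * (k + 1) + j by ring]
  have hmul3 : Tendsto (fun k : ℕ => 3 * k) atTop atTop :=
    tendsto_atTop_mono (fun k => by simp only [id]; omega) tendsto_id
  have hS3 : Tendsto (fun k => x (3 * k) + x (3 * k + 1) + x (3 * k + 2)) atTop (𝓝 (w + 1)) := by
    have := hSlim.comp hmul3
    rw [show w + 1 = 2 * v by rw [hw]; ring]
    exact this
  have hshift : ∀ {l : ℝ}, Tendsto (fun k => x (3 * k)) atTop (𝓝 l) →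
      Tendsto (fun k => x (3 * k + 3)) atTop (𝓝 l) := by
    intro l hl
    have := (tendsto_add_atTop_iff_nat 1).2 hl
    refine this.congr fun k => ?_
    rw [show 3 * (k + 1) = 3 * k + 3 by ring]
  have hshift1 : ∀ {l : ℝ}, Tendsto (fun k => x (3 * k + 1)) atTop (𝓝 l) →
      Tendsto (fun k => x (3 * k + 4)) atTop (𝓝 l) := by
    intro l hl
    have := (tendsto_add_atTop_iff_nat 1).2 hl
    refine this.congr fun k => ?_
    rw [show 3 * (k + 1) + 1 = 3 * k + 4 by ring]
  have c0 := hcl 0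
  simp only [add_zero] at c0
  rcases c0 with c0 | c0 <;> rcases hcl 1 with c1 | c1 <;> rcases hcl 2 with c2 | c2
  · have := tendsto_nhds_unique hS3 ((c0.add c1).add c2)
    linarith
  · have := tendsto_nhds_unique hS3 ((c0.add c1).add c2)
    linarith
  · have := tendsto_nhds_unique hS3 ((c0.add c1).add c2)
    linarith
  · have h1 := tendsto_nhds_unique hS3 ((c0.add c1).add c2)
    have hw1 : w = 1 := by linarith
    rw [hw1] at c1 c2
    exact Or.inr ⟨0, by norm_num, c0, c1, c2⟩
  · have := tendsto_nhds_unique hS3 ((c0.add c1).add c2)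
    linarith
  · have h1 := tendsto_nhds_unique hS3 ((c0.add c1).add c2)
    have hw1 : w = 1 := by linarith
    rw [hw1] at c0 c2
    exact Or.inr ⟨1, by norm_num, c1, c2, hshift c0⟩
  · have h1 := tendsto_nhds_unique hS3 ((c0.add c1).add c2)
    have hw1 : w = 1 := by linarith
    rw [hw1] at c0 c1
    exact Or.inr ⟨2, by norm_num, c2, hshift c0, hshift1 c1⟩
  · have h1 := tendsto_nhds_unique hS3 ((c0.add c1).add c2)
    have hw1 : w = 1 / 2 := by linarith
    rw [hw1] at c0 c1 c2
    exact Or.inl (tendsto_of_classes c0 c1 c2)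

end Pool.Agent.Lib.MP_b43024_an
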