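import Mathlib

/-!
# MP_b43024_an: functions with small Lipschitz constants near `0`
-/

set_option autoImplicit false

namespace Pool.Agent.Lib.MP_b43024_an

variable {E F : Type*} [NormedAddCommGroup E] [NormedAddCommGroup F]

/-- Lipschitz near `0` with a constant proportional to the radius -/
def QV (f : E → F) : Prop :=
  ∃ K δ : ℝ, 0 ≤ K ∧ 0 < δ ∧ ∀ ρ : ℝ, ρ ≤ δ → ∀ h h' : E, ‖h‖ ≤ ρ → ‖h'‖ ≤ ρ →
    ‖f h - f h'‖ ≤ K * ρ * ‖h - h'‖

/-- Lipschitz near `0` and zero at `0` -/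
def LV (f : E → ℝ) : Prop :=
  f 0 = 0 ∧ ∃ K δ : ℝ, 0 ≤ K ∧ 0 < δ ∧ ∀ h h' : E, ‖h‖ ≤ δ → ‖h'‖ ≤ δ →
    |f h - f h'| ≤ K * ‖h - h'‖

theorem QV.add {f g : E → F} (hf : QV f) (hg : QV g) : QV (fun h => f h + g h) := by
  obtain ⟨K, δ, hK, hδ, h1⟩ := hf
  obtain ⟨K', δ', hK', hδ', h2⟩ := hg
  refine ⟨K + K', min δ δ', by linarith, lt_min hδ hδ', fun ρ hρ h h' hh hh' => ?_⟩
  have e1 := h1 ρ (hρ.trans (min_le_left _ _)) h h' hh hh'
  have e2 := h2 ρ (hρ.trans (min_le_right _ _)) h h' hh hh'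
  have e3 : (f h + g h) - (f h' + g h') = (f h - f h') + (g h - g h') := by abel
  rw [e3]
  refine (norm_add_le _ _).trans ((add_le_add e1 e2).trans (le_of_eq ?_))
  ring

theorem QV.smul_const [NormedSpace ℝ F] {q : E → ℝ} (hq : QV q) (v : F) :
    QV (fun h => q h • v) := by
  obtain ⟨K, δ, hK, hδ, h1⟩ := hq
  refine ⟨K * ‖v‖, δ, by positivity, hδ, fun ρ hρ h h' hh hh' => ?_⟩
  have e1 := h1 ρ hρ h h' hh hh'
  rw [← sub_smul, norm_smul]
  calc _ ≤ K * ρ * ‖h - h'‖ * ‖v‖ := mul_le_mul_of_nonneg_right e1 (norm_nonneg _)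
    _ = _ := by ring

theorem QV.const_mul {q : E → ℝ} (hq : QV q) (a : ℝ) : QV (fun h => a * q h) := by
  have := hq.smul_const a
  simpa [smul_eq_mul, mul_comm] using this

theorem LV.mul {f g : E → ℝ} (hf : LV f) (hg : LV g) : QV (fun h => f h * g h) := by
  obtain ⟨f0, K, δ, hK, hδ, h1⟩ := hf
  obtain ⟨g0, K', δ', hK', hδ', h2⟩ := hg
  refine ⟨2 * K * K', min δ δ', by positivity, lt_min hδ hδ', fun ρ hρ h h' hh hh' => ?_⟩
  have hρ0 : 0 ≤ ρ := (norm_nonneg _).trans hh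
  have hρ1 := hρ.trans (min_le_left _ _)
  have hρ2 := hρ.trans (min_le_right _ _)
  have e1 := h1 h h' (hh.trans hρ1) (hh'.trans hρ1)
  have e2 := h2 h h' (hh.trans hρ2) (hh'.trans hρ2)
  have e3 : |g h| ≤ K' * ρ := by
    have := h2 h 0 (hh.trans hρ2) (by rw [norm_zero]; exact hδ'.le)
    rw [g0, sub_zero, sub_zero] at this
    exact this.trans (mul_le_mul_of_nonneg_left hh hK')
  have e4 : |f h'| ≤ K * ρ := by
    have := h1 h' 0 (hh'.trans hρ1) (by rw [norm_zero]; exact hδ.le)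
    rw [f0, sub_zero, sub_zero] at this
    exact this.trans (mul_le_mul_of_nonneg_left hh' hK)
  have e5 : f h * g h - f h' * g h' = (f h - f h') * g h + f h' * (g h - g h') := by ring
  rw [Real.norm_eq_abs, e5]
  refine (abs_add_le _ _).trans ?_
  rw [abs_mul, abs_mul]
  have hd : 0 ≤ ‖h - h'‖ := norm_nonneg _
  have e6 : |f h - f h'| * |g h| ≤ (K * ‖h - h'‖) * (K' * ρ) :=
    mul_le_mul e1 e3 (abs_nonneg _) (by positivity)
  have e7 : |f h'| * |g h - g h'| ≤ (K * ρ) * (K' * ‖h - h'‖) :=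
    mul_le_mul e4 e2 (abs_nonneg _) (by positivity)
  calc _ ≤ _ := add_le_add e6 e7
    _ = _ := by ring

theorem LV.add {f g : E → ℝ} (hf : LV f) (hg : LV g) : LV (fun h => f h + g h) := by
  obtain ⟨f0, K, δ, hK, hδ, h1⟩ := hf
  obtain ⟨g0, K', δ', hK', hδ', h2⟩ := hg
  refine ⟨by simp [f0, g0], K + K', min δ δ', by linarith, lt_min hδ hδ', fun h h' hh hh' => ?_⟩
  have e1 := h1 h h' (hh.trans (min_le_left _ _)) (hh'.trans (min_le_left _ _))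
  have e2 := h2 h h' (hh.trans (min_le_right _ _)) (hh'.trans (min_le_right _ _))
  have e3 : (f h + g h) - (f h' + g h') = (f h - f h') + (g h - g h') := by ring
  rw [e3]
  refine (abs_add_le _ _).trans ((add_le_add e1 e2).trans (le_of_eq ?_))
  ring

theorem LV.const_mul {f : E → ℝ} (hf : LV f) (a : ℝ) : LV (fun h => a * f h) := by
  obtain ⟨f0, K, δ, hK, hδ, h1⟩ := hf
  refine ⟨by simp [f0], |a| * K, δ, by positivity, hδ, fun h h' hh hh' => ?_⟩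
  have e1 := h1 h h' hh hh'
  rw [← mul_sub, abs_mul, mul_assoc]
  exact mul_le_mul_of_nonneg_left e1 (abs_nonneg _)

theorem QV.lv {f : E → ℝ} (hf : QV f) (f0 : f 0 = 0) : LV f := by
  obtain ⟨K, δ, hK, hδ, h1⟩ := hf
  exact ⟨f0, K * δ, δ, by positivity, hδ, fun h h' hh hh' => h1 δ le_rfl h h' hh hh'⟩

theorem LV.of_bound {f : E → ℝ} (hf : ∀ h h', f (h - h') = f h - f h') (K : ℝ)
    (hK : ∀ h, |f h| ≤ K * ‖h‖) (hK0 : 0 ≤ K) : LV f := by
  refine ⟨?_, K, 1, hK0, one_pos, fun h h' _ _ => ?_⟩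
  · have := hf 0 0
    simpa using this
  · rw [← hf]
    exact hK _

theorem LV.mul_lv {f g : E → ℝ} (hf : LV f) (hg : LV g) : LV (fun h => f h * g h) :=
  (hf.mul hg).lv (by simp [hf.1])

theorem exists_lip_of {H L : E → F} (hL : ∀ h h', L (h - h') = L h - L h')
    {q : E → F} (hq : QV q) (hH : ∀ h, H h = L h + q h) :
    ∃ K δ : ℝ, 0 ≤ K ∧ 0 < δ ∧ ∀ ρ : ℝ, ρ ≤ δ → ∀ h h' : E, ‖h‖ ≤ ρ → ‖h'‖ ≤ ρ →
      ‖(H h - H h') - L (h - h')‖ ≤ K * ρ * ‖h - h'‖ := by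
  obtain ⟨K, δ, hK, hδ, h1⟩ := hq
  refine ⟨K, δ, hK, hδ, fun ρ hρ h h' hh hh' => ?_⟩
  have e : (H h - H h') - L (h - h') = q h - q h' := by
    rw [hH, hH, hL]
    abel
  rw [e]
  exact h1 ρ hρ h h' hh hh'

end Pool.Agent.Lib.MP_b43024_an
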