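import Pool.Agent.Lib.MP_b43024_an.Maps

/-!
# MP_b43024_an: the chart at the equilibrium `(1/2, 1/2, 1/2)`
-/

set_option autoImplicit false

namespace Pool.Agent.Lib.MP_b43024_an

open Filter Topology

theorem LV.congr {E : Type*} [NormedAddCommGroup E] {f g : E → ℝ} (hf : LV f)
    (h : ∀ x, f x = g x) : LV g := by
  rwa [show g = f from funext fun x => (h x).symm]

theorem QV.congr {E F : Type*} [NormedAddCommGroup E] [NormedAddCommGroup F] {f g : E → F}
    (hf : QV f) (h : ∀ x, f x = g x) : QV g := by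
  rwa [show g = f from funext fun x => (h x).symm]

namespace Curve

/-- the parameters: `l` is the contraction rate, `i` its inverse -/
structure Par where
  l : ℝ
  l0 : 0 < l
  l1 : l < 1
  eq : 4 * l ^ 3 + l ^ 2 + l = 4

variable (P : Par)

/-- the inverse of `l` -/
noncomputable def Par.i : ℝ := P.l ^ 2 + P.l / 4 + 1 / 4

theorem Par.hi : P.i * P.l = 1 := by
  unfold Par.i
  linear_combination (1 / 4) * P.eq

theorem Par.i1 : 1 < P.i := by
  have h1 := P.hi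
  have h2 := P.l0
  have h3 := P.l1
  by_contra hcon
  push Not at hcon
  nlinarith

/-- normalisation -/
noncomputable def Par.k : ℝ := 1 / (P.i + 2 * P.l ^ 2 + P.l / 4)

theorem Par.hk : (P.i + 2 * P.l ^ 2 + P.l / 4) * P.k = 1 := by
  unfold Par.k
  have h1 := P.i1
  have h2 := P.l0
  have : P.i + 2 * P.l ^ 2 + P.l / 4 ≠ 0 := by positivity
  field_simp

/-- the real part -/
noncomputable def Par.cr : ℝ := (P.l + 1 / 4) / 2

/-- the imaginary part -/
noncomputable def Par.ci : ℝ := √(P.i - P.cr ^ 2)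

theorem Par.ci_arg : 0 < P.i - P.cr ^ 2 := by
  have h1 := P.i1
  have h2 := P.l0
  have h3 := P.l1
  unfold Par.cr
  nlinarith

theorem Par.ci_pos : 0 < P.ci := Real.sqrt_pos.2 P.ci_arg

theorem Par.ci_sq : P.ci ^ 2 = P.i - P.cr ^ 2 := Real.sq_sqrt P.ci_arg.le

/-- inverse of the imaginary part -/
noncomputable def Par.j : ℝ := 1 / P.ci

theorem Par.hj : P.ci * P.j = 1 := by
  unfold Par.j
  have := P.ci_pos
  field_simp

/-- the complex eigenvalue -/
noncomputable def Par.nu : ℂ := ⟨-(P.l * P.cr), -(P.l * P.ci)⟩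

theorem Par.norm_nu : ‖P.nu‖ = √P.l := by
  rw [Complex.norm_def, Complex.normSq_apply]
  congr 1
  unfold Par.nu
  simp only
  have h1 := P.ci_sq
  have h2 := P.hi
  linear_combination P.l ^ 2 * h1 + P.l * h2

/-- the coordinates -/
noncomputable def Inv (h : ℝ × ℝ × ℝ) : ℝ × ℂ :=
  ((P.i * (h.1 - 1 / 2) + (P.l + 1 / 4) * (h.2.1 - 1 / 2) + (h.2.2 - 1 / 2)) * P.k,
    ⟨(h.2.2 - 1 / 2) - P.l * (h.2.1 - 1 / 2) + P.cr * ((h.2.1 - 1 / 2) - P.l * (h.1 - 1 / 2)),
      P.ci * ((h.2.1 - 1 / 2) - P.l * (h.1 - 1 / 2))⟩)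

/-- the coordinates of the vector `h` -/
noncomputable def h1 (x : ℝ × ℂ) : ℝ :=
  x.1 - ((2 * P.l + 1 / 4) * (P.j * x.2.im) + (x.2.re - P.cr * (P.j * x.2.im))) * P.k

noncomputable def h2 (x : ℝ × ℂ) : ℝ := P.j * x.2.im + P.l * h1 P x

noncomputable def h3 (x : ℝ × ℂ) : ℝ := (x.2.re - P.cr * (P.j * x.2.im)) + P.l * h2 P x

/-- the inverse of the coordinates -/
noncomputable def Ψ (x : ℝ × ℂ) : ℝ × ℝ × ℝ := (1 / 2 + h1 P x, 1 / 2 + h2 P x, 1 / 2 + h3 P x)

theorem left (x : ℝ × ℂ) : Inv P (Ψ P x) = x := by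
  have e1 := P.hj
  have e2 := P.hk
  refine Prod.ext ?_ (Complex.ext ?_ ?_)
  · simp only [Inv, Ψ, h1, h2, h3]
    linear_combination (x.1 - ((2 * P.l + 1 / 4) * (P.j * x.2.im) +
      (x.2.re - P.cr * (P.j * x.2.im))) * P.k) * e2
  · simp only [Inv, Ψ, h1, h2, h3]
    ring
  · simp only [Inv, Ψ, h1, h2, h3]
    linear_combination x.2.im * e1

theorem right (p : ℝ × ℝ × ℝ) : Ψ P (Inv P p) = p := by
  have e1 := P.hj
  have e2 := P.hk
  obtain ⟨a, b, c⟩ := p
  have t1 : h1 P (Inv P (a, b, c)) = a - 1 / 2 := by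
    simp only [Inv, h1]
    linear_combination (a - 1 / 2) * e2 + (-(2 * P.l + 1 / 4 - P.cr) * P.k *
      ((b - 1 / 2) - P.l * (a - 1 / 2))) * e1
  have t2 : h2 P (Inv P (a, b, c)) = b - 1 / 2 := by
    rw [h2, t1]
    simp only [Inv]
    linear_combination ((b - 1 / 2) - P.l * (a - 1 / 2)) * e1
  have t3 : h3 P (Inv P (a, b, c)) = c - 1 / 2 := by
    rw [h3, t2]
    simp only [Inv]
    linear_combination (- P.cr * ((b - 1 / 2) - P.l * (a - 1 / 2))) * e1
  simp only [Ψ, t1, t2, t3]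
  refine Prod.ext ?_ (Prod.ext ?_ ?_) <;> simp only <;> ring

theorem Ψ_cont : Continuous (Ψ P) := by
  unfold Ψ h3 h2 h1
  fun_prop

theorem Inv_cont : Continuous (Inv P) := by
  have h1 : Continuous fun h : ℝ × ℝ × ℝ =>
      (((h.2.2 - 1 / 2) - P.l * (h.2.1 - 1 / 2) +
        P.cr * ((h.2.1 - 1 / 2) - P.l * (h.1 - 1 / 2)) : ℝ) : ℂ) +
      ((P.ci * ((h.2.1 - 1 / 2) - P.l * (h.1 - 1 / 2)) : ℝ) : ℂ) * Complex.I := by fun_prop
  have h2 : Continuous fun h : ℝ × ℝ × ℝ =>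
      (P.i * (h.1 - 1 / 2) + (P.l + 1 / 4) * (h.2.1 - 1 / 2) + (h.2.2 - 1 / 2)) * P.k := by
    fun_prop
  refine (h2.prodMk h1).congr fun h => ?_
  refine Prod.ext rfl ?_
  simp only [Inv]
  rw [Complex.mk_eq_add_mul_I]

/-- the map in the coordinates -/
noncomputable def H (x : ℝ × ℂ) : ℝ × ℂ := Inv P (G (Ψ P x))

/-- the quadratic term -/
noncomputable def q (x : ℝ × ℂ) : ℝ := h3 P x * (h1 P x + h2 P x)

/-- its direction -/
noncomputable def v0 : ℝ × ℂ := (P.i * P.k / 2, ⟨-(P.cr * P.l) / 2, -(P.ci * P.l) / 2⟩)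

theorem H_eq (x : ℝ × ℂ) : H P x = (P.i * x.1, P.nu * x.2) + q P x • v0 P := by
  have e1 := P.hi
  have e2 := P.ci_sq
  have e3 : P.cr = (P.l + 1 / 4) / 2 := rfl
  have e4 : P.i = P.l ^ 2 + P.l / 4 + 1 / 4 := rfl
  -- in terms of the vector h
  have key : ∀ a b c : ℝ, Inv P (G (1 / 2 + a, 1 / 2 + b, 1 / 2 + c)) =
      (P.i * (Inv P (1 / 2 + a, 1 / 2 + b, 1 / 2 + c)).1,
        P.nu * (Inv P (1 / 2 + a, 1 / 2 + b, 1 / 2 + c)).2) + (c * (a + b)) • v0 P := by
    intro a b c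
    refine Prod.ext ?_ (Complex.ext ?_ ?_)
    · simp only [Inv, G, v0, Prod.smul_mk, Prod.fst_add, smul_eq_mul]
      linear_combination (P.k * (a * (-(P.l + 1 / 4)) - b)) * e1 + (-(P.k * P.i * a)) * e4
    · simp only [Inv, G, v0, Prod.smul_mk, Prod.snd_add, Complex.add_re, Complex.mul_re, Par.nu,
        Complex.smul_re, smul_eq_mul]
      linear_combination (-(P.l * (b - P.l * a))) * e2 + (-(b - P.l * a)) * e1 +
        (2 * P.cr * P.l * (b - P.l * a)) * e3 + (-(P.cr * a) / 4) * P.eq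
    · simp only [Inv, G, v0, Prod.smul_mk, Prod.snd_add, Complex.add_im, Complex.mul_im, Par.nu,
        Complex.smul_im, smul_eq_mul]
      linear_combination (2 * P.ci * P.l * (b - P.l * a)) * e3 + (-(P.ci * a) / 4) * P.eq
  have h1' := key (h1 P x) (h2 P x) (h3 P x)
  have h2' : (1 / 2 + h1 P x, 1 / 2 + h2 P x, 1 / 2 + h3 P x) = Ψ P x := rfl
  rw [h2', left] at h1'
  exact h1'

theorem lv_fst : LV (fun x : ℝ × ℂ => x.1) :=
  LV.of_bound (fun _ _ => rfl) 1 (fun h => by rw [one_mul]; exact norm_fst_le h) zero_le_one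

theorem lv_re : LV (fun x : ℝ × ℂ => x.2.re) :=
  LV.of_bound (fun _ _ => rfl) 1
    (fun h => by rw [one_mul]; exact (Complex.abs_re_le_norm _).trans (norm_snd_le h)) zero_le_one

theorem lv_im : LV (fun x : ℝ × ℂ => x.2.im) :=
  LV.of_bound (fun _ _ => rfl) 1
    (fun h => by rw [one_mul]; exact (Complex.abs_im_le_norm _).trans (norm_snd_le h)) zero_le_one

theorem lv_h1 : LV (h1 P) := by
  refine (lv_fst.add ((lv_im.const_mul (-(P.j * (2 * P.l + 1 / 4 - P.cr) * P.k))).add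
    (lv_re.const_mul (-P.k)))).congr fun x => ?_
  unfold h1
  ring

theorem lv_h2 : LV (h2 P) := by
  refine ((lv_im.const_mul P.j).add ((lv_h1 P).const_mul P.l)).congr fun x => ?_
  unfold h2
  ring

theorem lv_h3 : LV (h3 P) := by
  refine (lv_re.add ((lv_im.const_mul (-(P.cr * P.j))).add ((lv_h2 P).const_mul P.l))).congr
    fun x => ?_
  unfold h3
  ring

theorem qv_q : QV (q P) := ((lv_h3 P).mul ((lv_h1 P).add (lv_h2 P))).congr fun _ => rfl

theorem lip : ∃ K δ : ℝ, 0 ≤ K ∧ 0 < δ ∧ ∀ ρ : ℝ, ρ ≤ δ → ∀ h h' : ℝ × ℂ, ‖h‖ ≤ ρ → ‖h'‖ ≤ ρ →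
    ‖(H P h - H P h') - (P.i * (h - h').1, P.nu * (h - h').2)‖ ≤ K * ρ * ‖h - h'‖ := by
  refine exists_lip_of (L := fun h : ℝ × ℂ => (P.i * h.1, P.nu * h.2)) (fun h h' => ?_)
    ((qv_q P).smul_const (v0 P)) (H_eq P)
  simp only [Prod.fst_sub, Prod.snd_sub, mul_sub, Prod.mk_sub_mk]

/-- the map at the equilibrium -/
noncomputable def ud : UD ℝ ℂ where
  H := H P
  A := P.i • LinearMap.id
  B := P.l • LinearMap.id
  D := LinearMap.mulLeft ℝ P.nu
  r := P.l
  θ := √P.l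
  M := P.i
  K := (lip P).choose
  δ := (lip P).choose_spec.choose
  hAB := fun w => by
    simp only [LinearMap.smul_apply, LinearMap.id_apply, smul_eq_mul]
    rw [← mul_assoc, P.hi, one_mul]
  hBA := fun w => by
    simp only [LinearMap.smul_apply, LinearMap.id_apply, smul_eq_mul]
    rw [← mul_assoc, mul_comm P.l, P.hi, one_mul]
  hB := fun w => by
    simp only [LinearMap.smul_apply, LinearMap.id_apply, smul_eq_mul]
    rw [norm_mul, Real.norm_of_nonneg P.l0.le]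
  hA := fun w => by
    simp only [LinearMap.smul_apply, LinearMap.id_apply, smul_eq_mul]
    rw [norm_mul, Real.norm_of_nonneg (by linarith [P.i1])]
  hD := fun z => by
    rw [LinearMap.mulLeft_apply, norm_mul, P.norm_nu]
  r0 := P.l0
  r1 := P.l1
  θ0 := Real.sqrt_nonneg _
  θ1 := by
    rw [Real.sqrt_lt' one_pos, one_pow]
    exact P.l1
  M1 := P.i1.le
  Mr := by
    have h1 := P.hi
    have h2 := P.l1
    calc P.i * P.l ^ 2 = (P.i * P.l) * P.l := by ring
      _ = P.l := by rw [h1, one_mul]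
      _ < 1 := h2
  K0 := (lip P).choose_spec.choose_spec.1
  δ0 := (lip P).choose_spec.choose_spec.2.1
  cont := (Inv_cont P).comp (G_continuous.comp (Ψ_cont P))
  H0 := by
    rw [H_eq]
    have h1 : h1 P 0 = 0 := (lv_h1 P).1
    have h3 : h3 P 0 = 0 := (lv_h3 P).1
    have h4 : q P 0 = 0 := by rw [q, h3, zero_mul]
    rw [h4]
    simp
  lip := (lip P).choose_spec.choose_spec.2.2

/-- the chart at the equilibrium -/
noncomputable def chart : Chart (ud P) G where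
  Ψ := Ψ P
  Inv := Inv P
  Ψc := Ψ_cont P
  Ic := Inv_cont P
  left := left P
  right := right P
  conj := fun x => (right P (G (Ψ P x))).symm

theorem Ψ_zero : Ψ P 0 = (1 / 2, 1 / 2, 1 / 2) := by
  have h1 : h1 P 0 = 0 := (lv_h1 P).1
  have h2 : h2 P 0 = 0 := (lv_h2 P).1
  have h3 : h3 P 0 = 0 := (lv_h3 P).1
  simp only [Ψ, h1, h2, h3, add_zero]

theorem Ψ_line (t : ℝ) : Ψ P (t, 0) = (1 / 2 + t, 1 / 2 + P.l * t, 1 / 2 + P.l ^ 2 * t) := by
  simp only [Ψ, h3, h2, h1, Complex.zero_re, Complex.zero_im]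
  refine Prod.ext ?_ (Prod.ext ?_ ?_) <;> simp only <;> ring

theorem Bit (n : ℕ) (t : ℝ) : (ud P).B^[n] t = P.l ^ n * t := by
  induction n with
  | zero => simp
  | succ n ih =>
    rw [Function.iterate_succ_apply', ih]
    change P.l • (P.l ^ n * t) = _
    rw [smul_eq_mul, pow_succ]
    ring

/-- the curve -/
noncomputable def c (t : ℝ) : ℝ × ℝ × ℝ := (chart P).par t

theorem c_lim (t : ℝ) : Tendsto (fun n => G^[n] (1 / 2 + P.l ^ n * t, 1 / 2 + P.l ^ (n + 1) * t,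
    1 / 2 + P.l ^ (n + 2) * t)) atTop (𝓝 (c P t)) := by
  refine ((chart P).par_lim t).congr fun n => ?_
  rw [Bit]
  change G^[n] (Ψ P (P.l ^ n * t, 0)) = _
  rw [Ψ_line]
  congr 1
  refine Prod.ext rfl (Prod.ext ?_ ?_) <;> simp only <;> ring

theorem c_continuous : Continuous (c P) := (chart P).par_continuous

theorem c_Git (n : ℕ) (t : ℝ) : G^[n] (c P (P.l ^ n * t)) = c P t := by
  have := (chart P).git_par n t
  rwa [Bit] at this

theorem c_zero_lim (t : ℝ) : Tendsto (fun n : ℕ => c P (P.l ^ n * t)) atTop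
    (𝓝 (1 / 2, 1 / 2, 1 / 2)) := by
  have h1 := (chart P).par_Bit_tendsto t
  have h2 : (chart P).Ψ 0 = (1 / 2, 1 / 2, 1 / 2) := Ψ_zero P
  rw [h2] at h1
  refine h1.congr fun n => ?_
  rw [Bit]
  rfl

theorem c_pos (t : ℝ) : Pos (c P t) := by
  have h1 : ∀ᶠ p : ℝ × ℝ × ℝ in 𝓝 (1 / 2, 1 / 2, 1 / 2), Pos p := by
    have h2 : IsOpen {p : ℝ × ℝ × ℝ | Pos p} := by
      have a1 : IsOpen {p : ℝ × ℝ × ℝ | 0 < p.1} := isOpen_lt continuous_const continuous_fst
      have a2 : IsOpen {p : ℝ × ℝ × ℝ | 0 < p.2.1} :=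
        isOpen_lt continuous_const (continuous_fst.comp continuous_snd)
      have a3 : IsOpen {p : ℝ × ℝ × ℝ | 0 < p.2.2} :=
        isOpen_lt continuous_const (continuous_snd.comp continuous_snd)
      exact a1.inter (a2.inter a3)
    refine h2.mem_nhds ?_
    change Pos _
    refine ⟨?_, ?_, ?_⟩ <;> norm_num
  obtain ⟨n, hn⟩ := ((c_zero_lim P t).eventually h1).exists
  rw [← c_Git P n t]
  exact Git_pos hn n

theorem c_injective : Function.Injective (c P) := by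
  intro t t' h
  refine (chart P).par_inj G_injOn (fun n => ?_) (fun n => ?_) h
  · rw [Bit]
    exact c_pos P _
  · rw [Bit]
    exact c_pos P _

theorem Tit_c (n : ℕ) (t : ℝ) : T^[n] (c P t) = c P (P.l ^ n * t) := by
  rw [← c_Git P n t, Tit_Git (c_pos P _)]

/-- the points whose orbits converge to the equilibrium -/
theorem mem_c {p : ℝ × ℝ × ℝ} (hp : Pos p)
    (h : Tendsto (fun n => T^[n] p) atTop (𝓝 (1 / 2, 1 / 2, 1 / 2))) : ∃ t, p = c P t := by
  have h1 : ∀ n, G (T^[n + 1] p) = T^[n] p := by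
    intro n
    rw [Function.iterate_succ_apply']
    exact G_T (Tit_pos hp n)
  have h2 : (chart P).Ψ 0 = (1 / 2, 1 / 2, 1 / 2) := Ψ_zero P
  obtain ⟨t, ht⟩ := (chart P).par_complete (fun n => T^[n] p) h1 (by rw [h2]; exact h)
  exact ⟨t, ht 0⟩

end Curve

end Pool.Agent.Lib.MP_b43024_an
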