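import Pool.Agent.Lib.MP_b43024_an.Surf2

/-!
# MP_b43024_an: the curve is increasing; the function `V`
-/

set_option autoImplicit false

namespace Pool.Agent.Lib.MP_b43024_an

open Filter Topology

namespace Curve

variable (P : Par)

/-- the first coordinate -/
noncomputable def f (t : ℝ) : ℝ := (c P t).1

theorem c_T (t : ℝ) : T (c P t) = c P (P.l * t) := by
  have := Tit_c P 1 t
  rwa [pow_one] at this

theorem c_eq (t : ℝ) : c P t = (f P t, f P (P.l * t), f P (P.l ^ 2 * t)) := by
  have h1 := c_T P t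
  have h2 := c_T P (P.l * t)
  have e1 : f P (P.l * t) = (c P t).2.1 := by
    rw [f, ← h1]
    rfl
  have e2 : f P (P.l * (P.l * t)) = (c P t).2.2 := by
    rw [f, ← h2, ← h1]
    rfl
  rw [show P.l ^ 2 * t = P.l * (P.l * t) by ring, e1, e2]
  rfl

theorem f_pos (t : ℝ) : 0 < f P t := (c_pos P t).1

theorem f_rec (t : ℝ) :
    f P t = f P (P.l ^ 3 * t) * (1 + f P (P.l * t) + f P (P.l ^ 2 * t)) / 2 := by
  have h1 := c_Git P 1 t
  rw [pow_one] at h1
  have h2 := congrArg Prod.fst h1
  change (G (c P (P.l * t))).1 = f P t at h2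
  rw [← h2, c_eq P (P.l * t)]
  simp only [G]
  rw [show P.l ^ 2 * (P.l * t) = P.l ^ 3 * t by ring, show P.l * (P.l * t) = P.l ^ 2 * t by ring]

theorem f_continuous : Continuous (f P) := continuous_fst.comp (c_continuous P)

theorem f_err (t : ℝ) : Tendsto (fun n => (f P (P.l ^ n * t) - 1 / 2) / P.l ^ n) atTop (𝓝 t) :=
  Curve.err P t

theorem f_strictMono : StrictMono (f P) := by
  intro t t' htt
  have hl0 := P.l0
  have h1 : ∀ᶠ n in atTop, f P (P.l ^ n * t) < f P (P.l ^ n * t') := by
    have h2 := (f_err P t).eventually_lt (f_err P t') htt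
    filter_upwards [h2] with n hn
    have h3 : 0 < P.l ^ n := by positivity
    rw [div_lt_div_iff_of_pos_right h3] at hn
    linarith
  obtain ⟨N, hN⟩ := eventually_atTop.1 h1
  have key : ∀ k, ∀ m, N ≤ m + k → f P (P.l ^ m * t) < f P (P.l ^ m * t') := by
    intro k
    induction k with
    | zero => intro m hm; exact hN m hm
    | succ k ih =>
      intro m hm
      have a1 := ih (m + 1) (by omega)
      have a2 := ih (m + 2) (by omega)
      have a3 := ih (m + 3) (by omega)
      have r : ∀ s : ℝ, f P (P.l ^ m * s) = f P (P.l ^ (m + 3) * s) *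
          (1 + f P (P.l ^ (m + 1) * s) + f P (P.l ^ (m + 2) * s)) / 2 := by
        intro s
        rw [f_rec P (P.l ^ m * s)]
        rw [show P.l ^ 3 * (P.l ^ m * s) = P.l ^ (m + 3) * s by ring,
          show P.l * (P.l ^ m * s) = P.l ^ (m + 1) * s by ring,
          show P.l ^ 2 * (P.l ^ m * s) = P.l ^ (m + 2) * s by ring]
      rw [r t, r t']
      have b1 := f_pos P (P.l ^ (m + 3) * t)
      have b2 := f_pos P (P.l ^ (m + 1) * t)
      have b3 := f_pos P (P.l ^ (m + 2) * t)
      have := mul_lt_mul'' a3 (by linarith : 1 + f P (P.l ^ (m + 1) * t) +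
        f P (P.l ^ (m + 2) * t) < 1 + f P (P.l ^ (m + 1) * t') + f P (P.l ^ (m + 2) * t'))
        b1.le (by positivity)
      linarith
  have := key N 0 (by omega)
  simpa using this

theorem c_zero : c P 0 = (1 / 2, 1 / 2, 1 / 2) := by
  have h1 := c_zero_lim P 0
  simp only [mul_zero] at h1
  exact tendsto_nhds_unique tendsto_const_nhds h1

theorem f_zero : f P 0 = 1 / 2 := by
  rw [f, c_zero]

/-- the limit of a backward orbit -/
theorem back_lim {u : ℕ → ℝ} {L : ℝ} (hu : ∀ n, u (n + 3) = u n * (1 + u (n + 2) + u (n + 1)) / 2)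
    (h : Tendsto u atTop (𝓝 L)) : L = 0 ∨ L = 1 / 2 := by
  have h1 := (tendsto_add_atTop_iff_nat 1).2 h
  have h2 := (tendsto_add_atTop_iff_nat 2).2 h
  have h3 := (tendsto_add_atTop_iff_nat 3).2 h
  have h4 := ((h.mul ((h2.const_add 1).add h1)).div_const 2)
  have h5 : L = L * (1 + L + L) / 2 := tendsto_nhds_unique h3 (h4.congr fun n => (hu n).symm)
  have h6 : L * (L - 1 / 2) = 0 := by linarith
  rcases mul_eq_zero.1 h6 with h7 | h7
  · exact Or.inl h7
  · exact Or.inr (by linarith)

theorem f_back (s : ℝ) (n : ℕ) : f P (P.i ^ (n + 3) * s) = f P (P.i ^ n * s) *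
    (1 + f P (P.i ^ (n + 2) * s) + f P (P.i ^ (n + 1) * s)) / 2 := by
  have hi := P.hi
  rw [f_rec P (P.i ^ (n + 3) * s)]
  have e1 : P.l ^ 3 * (P.i ^ (n + 3) * s) = P.i ^ n * s := by
    calc _ = (P.i * P.l) ^ 3 * (P.i ^ n * s) := by ring
      _ = _ := by rw [hi]; ring
  have e2 : P.l * (P.i ^ (n + 3) * s) = P.i ^ (n + 2) * s := by
    calc _ = (P.i * P.l) * (P.i ^ (n + 2) * s) := by ring
      _ = _ := by rw [hi]; ring
  have e3 : P.l ^ 2 * (P.i ^ (n + 3) * s) = P.i ^ (n + 1) * s := by
    calc _ = (P.i * P.l) ^ 2 * (P.i ^ (n + 1) * s) := by ring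
      _ = _ := by rw [hi]; ring
  rw [e1, e2, e3]

theorem exists_large (a : ℝ) : ∃ t, a ≤ f P t := by
  by_contra hcon
  push Not at hcon
  have hi := P.i1
  set u : ℕ → ℝ := fun n => f P (P.i ^ n * 1) with hu
  have hmono : Monotone u := by
    refine monotone_nat_of_le_succ fun n => (f_strictMono P).monotone ?_
    have : 0 < P.i ^ n := by positivity
    rw [pow_succ]
    nlinarith
  have hlim : Tendsto u atTop (𝓝 (⨆ n, u n)) :=
    tendsto_atTop_ciSup hmono ⟨a, by rintro _ ⟨n, rfl⟩; exact (hcon _).le⟩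
  have h1 := back_lim (u := u) (fun n => f_back P 1 n) hlim
  have h2 : u 0 ≤ ⨆ n, u n := hmono.ge_of_tendsto hlim 0
  have h3 : 1 / 2 < u 0 := by
    rw [← f_zero P]
    refine f_strictMono P ?_
    simp
  rcases h1 with h1 | h1 <;> linarith

theorem exists_small {a : ℝ} (ha : 0 < a) : ∃ t, f P t ≤ a := by
  by_contra hcon
  push Not at hcon
  have hi := P.i1
  set u : ℕ → ℝ := fun n => f P (P.i ^ n * (-1)) with hu
  have hanti : Antitone u := by
    refine antitone_nat_of_succ_le fun n => (f_strictMono P).monotone ?_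
    have : 0 < P.i ^ n := by positivity
    rw [pow_succ]
    nlinarith
  have hlim : Tendsto u atTop (𝓝 (⨅ n, u n)) :=
    tendsto_atTop_ciInf hanti ⟨a, by rintro _ ⟨n, rfl⟩; exact (hcon _).le⟩
  have h1 := back_lim (u := u) (fun n => f_back P (-1) n) hlim
  have h2 : (⨅ n, u n) ≤ u 0 := hanti.le_of_tendsto hlim 0
  have h3 : u 0 < 1 / 2 := by
    rw [← f_zero P]
    refine f_strictMono P ?_
    simp
  have h4 : a ≤ ⨅ n, u n := ge_of_tendsto' hlim fun n => (hcon _).le
  rcases h1 with h1 | h1 <;> linarith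

theorem f_surj {a : ℝ} (ha : 0 < a) : ∃ t, f P t = a := by
  obtain ⟨t1, h1⟩ := exists_large P a
  obtain ⟨t2, h2⟩ := exists_small P ha
  exact mem_range_of_exists_le_of_exists_ge (f_continuous P) ⟨t2, h2⟩ ⟨t1, h1⟩

end Curve

/-- **The criterion with the Lyapunov function.** -/
theorem IsSol.bounded_iff_V {x : ℕ → ℝ} (h : IsSol x) :
    (∃ C, ∀ n, x n ≤ C) ↔ ∀ n, V x n < 1 := by
  constructor
  · intro hb n
    -- the limit of V is at most one
    have hle : ∀ m, V x m ≤ 1 := by
      rcases h.bounded hb with h1 | ⟨j, -, h1, h2, h3⟩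
      · have a1 := (tendsto_add_atTop_iff_nat 1).2 h1
        have a2 := (tendsto_add_atTop_iff_nat 2).2 h1
        have h4 : Tendsto (V x) atTop (𝓝 (1 / 2 + 1 / 2 + 1 / 2 - 1 / 2 * (1 / 2) -
            1 / 2 * (1 / 2) - 1 / 2 * (1 / 2))) :=
          ((((h1.add a1).add a2).sub (h1.mul a1)).sub (a1.mul a2)).sub (h1.mul a2)
        intro m
        have := h.V_mono.ge_of_tendsto h4 m
        norm_num at this
        linarith
      · have h4 : Tendsto (fun k => V x (3 * k + j)) atTop
            (𝓝 (0 + 1 + 1 - 0 * 1 - 1 * 1 - 0 * 1)) :=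
          ((((h1.add h2).add h3).sub (h1.mul h2)).sub (h2.mul h3)).sub (h1.mul h3)
        have h5 : Monotone fun k => V x (3 * k + j) := fun a b hab => h.V_mono (by omega)
        intro m
        have h6 := h5.ge_of_tendsto h4 m
        norm_num at h6
        exact (h.V_mono (by omega : m ≤ 3 * m + j)).trans h6
    by_contra hcon
    push Not at hcon
    -- V is constant from n on
    have hV : ∀ m, n ≤ m → V x m = 1 := fun m hm =>
      le_antisymm (hle m) (hcon.trans (h.V_mono hm))
    have hsum : ∀ m, n ≤ m → x (m + 1) + x (m + 2) = 1 := by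
      intro m hm
      have h1 := h.V_succ m
      rw [hV m hm, hV (m + 1) (by omega), sub_self, eq_comm, div_eq_zero_iff] at h1
      rcases h1 with h1 | h1
      · rcases mul_eq_zero.1 h1 with h2 | h2
        · exact absurd h2 (h.1 m).ne'
        · have := pow_eq_zero_iff (two_ne_zero) |>.1 h2
          linarith
      · have := h.den m
        linarith
    have h3 : ∀ m, n ≤ m → x (m + 3) = x m := by
      intro m hm
      have h4 := hsum m hm
      rw [h.2 m, show 1 + x (m + 2) + x (m + 1) = 2 by linarith]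
      ring
    have s1 := hsum n le_rfl
    have s2 := hsum (n + 1) (by omega)
    have s3 := h3 n le_rfl
    have s4 := hsum (n + 2) (by omega)
    have s5 := h3 (n + 1) (by omega)
    rw [show n + 1 + 1 = n + 2 from rfl, show n + 1 + 2 = n + 3 from rfl] at s2
    rw [show n + 2 + 1 = n + 3 from rfl, show n + 2 + 2 = n + 4 from rfl] at s4
    rw [show n + 1 + 3 = n + 4 from rfl] at s5
    have v := hV n le_rfl
    simp only [V] at v
    have e0 : x n = 1 / 2 := by linarith
    have e1 : x (n + 1) = 1 / 2 := by linarith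
    have e2 : x (n + 2) = 1 / 2 := by linarith
    rw [e0, e1, e2] at v
    norm_num at v
  · intro hV
    by_contra hcon
    obtain ⟨j, -, h1, h2, h3⟩ := h.unbounded hcon
    have h4 : Tendsto (fun k => x (3 * k + j + 1) + x (3 * k + j + 2)) atTop (𝓝 (0 + 0)) :=
      h2.add h3
    rw [add_zero] at h4
    obtain ⟨k, hk1, hk2⟩ := ((h1.eventually (eventually_gt_atTop 2)).and
      (h4.eventually (gt_mem_nhds (show (0 : ℝ) < 1 / 2 by norm_num)))).exists
    have h5 := hV (3 * k + j)
    have p1 := h.1 (3 * k + j + 1)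
    have p2 := h.1 (3 * k + j + 2)
    simp only [V] at h5
    nlinarith [mul_pos p1 p2]

end Pool.Agent.Lib.MP_b43024_an
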