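import Pool.Agent.Lib.MP_b43024_an.Curve2

/-!
# MP_b43024_an: the set of the bounded solutions
-/

set_option autoImplicit false

namespace Pool.Agent.Lib.MP_b43024_an

open Filter Topology Set

/-- The set of all positive initial triples whose solution is bounded. -/
def BoundedSet : Set (ℝ × ℝ × ℝ) :=
  {p | ∃ x : ℕ → ℝ, IsSol x ∧ (x 0, x 1, x 2) = p ∧ ∃ C, ∀ n, x n ≤ C}

theorem IsSol.orbit {x : ℕ → ℝ} (h : IsSol x) (n : ℕ) :
    T^[n] (x 0, x 1, x 2) = (x n, x (n + 1), x (n + 2)) := by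
  induction n with
  | zero => rfl
  | succ n ih =>
    rw [Function.iterate_succ_apply', ih]
    simp only [T]
    rw [show n + 1 + 2 = n + 3 from rfl, h.2 n]

theorem IsSol.pos {x : ℕ → ℝ} (h : IsSol x) : Pos (x 0, x 1, x 2) := ⟨h.1 0, h.1 1, h.1 2⟩

theorem IsSol.shift {x : ℕ → ℝ} (h : IsSol x) (m : ℕ) : IsSol fun n => x (n + m) := by
  refine ⟨fun n => h.1 _, fun n => ?_⟩
  have := h.2 (n + m)
  change x (n + 3 + m) = 2 * x (n + m) / (1 + x (n + 2 + m) + x (n + 1 + m))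
  rw [show n + 3 + m = n + m + 3 by ring, this, show n + 2 + m = n + m + 2 by ring,
    show n + 1 + m = n + m + 1 by ring]

theorem exists_isSol {p : ℝ × ℝ × ℝ} (hp : Pos p) :
    ∃ x : ℕ → ℝ, IsSol x ∧ (x 0, x 1, x 2) = p := by
  have e1 : ∀ n, (T^[n + 1] p).1 = (T^[n] p).2.1 := fun n => by
    rw [Function.iterate_succ_apply']
    rfl
  have e2 : ∀ n, (T^[n + 1] p).2.1 = (T^[n] p).2.2 := fun n => by
    rw [Function.iterate_succ_apply']
    rfl
  refine ⟨fun n => (T^[n] p).1, ⟨fun n => (Tit_pos hp n).1, fun n => ?_⟩, ?_⟩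
  · change (T^[n + 2 + 1] p).1 = 2 * (T^[n] p).1 / (1 + (T^[n + 1 + 1] p).1 + (T^[n + 1] p).1)
    rw [e1 (n + 2), e2 (n + 1), e1 (n + 1), e2 n, e1 n, Function.iterate_succ_apply']
    rfl
  · change ((T^[0] p).1, (T^[0 + 1] p).1, (T^[1 + 1] p).1) = p
    rw [e1 1, e2 0, e1 0]
    rfl

theorem bounded_shift {x : ℕ → ℝ} (hb : ∃ C, ∀ n, x n ≤ C) (m : ℕ) : ∃ C, ∀ n, x (n + m) ≤ C := by
  obtain ⟨C, hC⟩ := hb
  exact ⟨C, fun n => hC _⟩

theorem T_mem {p : ℝ × ℝ × ℝ} (hp : p ∈ BoundedSet) : T p ∈ BoundedSet := by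
  obtain ⟨x, h, rfl, hb⟩ := hp
  refine ⟨fun n => x (n + 1), h.shift 1, ?_, bounded_shift hb 1⟩
  have := h.orbit 1
  exact this.symm

/-- the surface -/
def AA : Set (ℝ × ℝ × ℝ) := Surf.S '' {w | 0 < w.1}

theorem bounded_of_classes {x : ℕ → ℝ} {l0 l1 l2 : ℝ}
    (h0 : Tendsto (fun n => x (3 * n)) atTop (𝓝 l0))
    (h1 : Tendsto (fun n => x (3 * n + 1)) atTop (𝓝 l1))
    (h2 : Tendsto (fun n => x (3 * n + 2)) atTop (𝓝 l2)) : ∃ C, ∀ n, x n ≤ C := by
  obtain ⟨C0, H0⟩ := h0.bddAbove_range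
  obtain ⟨C1, H1⟩ := h1.bddAbove_range
  obtain ⟨C2, H2⟩ := h2.bddAbove_range
  refine ⟨max C0 (max C1 C2), fun n => ?_⟩
  have h3 := Nat.div_add_mod n 3
  have h4 := Nat.mod_lt n (show 0 < 3 by norm_num)
  have h5 : n % 3 = 0 ∨ n % 3 = 1 ∨ n % 3 = 2 := by omega
  rcases h5 with h5 | h5 | h5
  · rw [← h3, h5, add_zero]
    exact (H0 ⟨n / 3, rfl⟩).trans (le_max_left _ _)
  · rw [← h3, h5]
    exact (H1 ⟨n / 3, rfl⟩).trans ((le_max_left _ _).trans (le_max_right _ _))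
  · rw [← h3, h5]
    exact (H2 ⟨n / 3, rfl⟩).trans ((le_max_right _ _).trans (le_max_right _ _))

theorem sol_c (P : Curve.Par) {x : ℕ → ℝ} (h : IsSol x) {t : ℝ} (ht : (x 0, x 1, x 2) = Curve.c P t) :
    (∀ n, (x n, x (n + 1), x (n + 2)) = Curve.c P (P.l ^ n * t)) ∧
      Tendsto x atTop (𝓝 (1 / 2)) ∧
      Tendsto (fun n => (x n - 1 / 2) / P.l ^ n) atTop (𝓝 t) := by
  have h1 : ∀ n, (x n, x (n + 1), x (n + 2)) = Curve.c P (P.l ^ n * t) := by
    intro n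
    rw [← h.orbit n, ht, Curve.Tit_c]
  have h2 : ∀ n, x n = (Curve.c P (P.l ^ n * t)).1 := fun n => congrArg Prod.fst (h1 n)
  refine ⟨h1, ?_, ?_⟩
  · have h3 := (continuous_fst.tendsto _).comp (Curve.c_zero_lim P t)
    exact h3.congr fun n => (h2 n).symm
  · exact (Curve.err P t).congr fun n => by rw [h2 n]

theorem sol_S {x : ℕ → ℝ} (h : IsSol x) {s t : ℝ} (hs : 0 < s) (ht : (x 0, x 1, x 2) = Surf.S (s, t)) :
    (∀ n, (x (3 * n), x (3 * n + 1), x (3 * n + 2)) =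
      Surf.S ((2 / 3) ^ n * s, Surf.eta ^ (2 * n) * t)) ∧
      Tendsto (fun n => x (3 * n)) atTop (𝓝 0) ∧ Tendsto (fun n => x (3 * n + 1)) atTop (𝓝 1) ∧
      Tendsto (fun n => x (3 * n + 2)) atTop (𝓝 1) ∧
      Tendsto (fun n => x (3 * n) / (2 / 3) ^ n) atTop (𝓝 s) ∧
      Tendsto (fun n => (x (3 * n + 1) - 1 + 5 * x (3 * n)) / Surf.eta ^ (2 * n)) atTop (𝓝 t) := by
  have h1 : ∀ n, (x (3 * n), x (3 * n + 1), x (3 * n + 2)) = Surf.S (Surf.b n (s, t)) := by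
    intro n
    rw [← h.orbit (3 * n), ht, Surf.Tit_S hs]
  have e0 : ∀ n, x (3 * n) = (Surf.S (Surf.b n (s, t))).1 := fun n => congrArg Prod.fst (h1 n)
  have e1 : ∀ n, x (3 * n + 1) = (Surf.S (Surf.b n (s, t))).2.1 :=
    fun n => congrArg (fun p => p.2.1) (h1 n)
  have e2 : ∀ n, x (3 * n + 2) = (Surf.S (Surf.b n (s, t))).2.2 :=
    fun n => congrArg (fun p => p.2.2) (h1 n)
  have hl := Surf.S_zero_lim (s, t)
  refine ⟨h1, ?_, ?_, ?_, ?_, ?_⟩
  · exact ((continuous_fst.tendsto _).comp hl).congr fun n => (e0 n).symm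
  · exact (((continuous_fst.comp continuous_snd).tendsto _).comp hl).congr fun n => (e1 n).symm
  · exact (((continuous_snd.comp continuous_snd).tendsto _).comp hl).congr fun n => (e2 n).symm
  · exact (Surf.err_s (s, t)).congr fun n => by rw [e0 n]
  · exact (Surf.err_t (s, t)).congr fun n => by rw [e1 n, e0 n]

theorem c_sub (P : Curve.Par) : range (Curve.c P) ⊆ BoundedSet := by
  rintro _ ⟨t, rfl⟩
  obtain ⟨x, h, hx⟩ := exists_isSol (Curve.c_pos P t)
  obtain ⟨-, h2, -⟩ := sol_c P h hx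
  obtain ⟨C, hC⟩ := h2.bddAbove_range
  exact ⟨x, h, hx, C, fun n => hC ⟨n, rfl⟩⟩

theorem AA_sub : AA ⊆ BoundedSet := by
  rintro _ ⟨⟨s, t⟩, hs, rfl⟩
  obtain ⟨x, h, hx⟩ := exists_isSol (Surf.S_pos hs)
  obtain ⟨-, h0, h1, h2, -⟩ := sol_S h hs hx
  exact ⟨x, h, hx, bounded_of_classes h0 h1 h2⟩

theorem G3_AA {p : ℝ × ℝ × ℝ} (hp : p ∈ AA) : G^[3] p ∈ AA := by
  obtain ⟨w, hw, rfl⟩ := hp
  refine ⟨Surf.ud.A w, ?_, (Surf.chart.g_par w).symm⟩
  change 0 < (3 / 2 : ℝ) * w.1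
  have : 0 < w.1 := hw
  positivity

theorem AA_pos {p : ℝ × ℝ × ℝ} (hp : p ∈ AA) : Pos p := by
  obtain ⟨w, hw, rfl⟩ := hp
  exact Surf.S_pos hw

/-- **The set of the bounded solutions.** -/
theorem boundedSet_eq (P : Curve.Par) :
    BoundedSet = range (Curve.c P) ∪ AA ∪ T '' AA ∪ T '' (T '' AA) := by
  apply Subset.antisymm
  · rintro _ ⟨x, h, rfl, hb⟩
    have hp := h.pos
    rcases h.bounded hb with h1 | ⟨j, hj, h1, h2, h3⟩
    · left; left; left
      have h4 : Tendsto (fun n => T^[n] (x 0, x 1, x 2)) atTop (𝓝 (1 / 2, 1 / 2, 1 / 2)) := by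
        have a1 := (tendsto_add_atTop_iff_nat 1).2 h1
        have a2 := (tendsto_add_atTop_iff_nat 2).2 h1
        exact (h1.prodMk_nhds (a1.prodMk_nhds a2)).congr fun n => (h.orbit n).symm
      obtain ⟨t, ht⟩ := Curve.mem_c P hp h4
      exact ⟨t, ht.symm⟩
    · have h4 : Tendsto (fun n => T^[3 * n] (T^[j] (x 0, x 1, x 2))) atTop (𝓝 (0, 1, 1)) := by
        refine (h1.prodMk_nhds (h2.prodMk_nhds h3)).congr fun n => ?_
        rw [← Function.iterate_add_apply, h.orbit (3 * n + j)]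
      obtain ⟨w, hw, hS⟩ := Surf.mem_S (Tit_pos hp j) h4
      have hAA : T^[j] (x 0, x 1, x 2) ∈ AA := ⟨w, hw, hS.symm⟩
      have hj3 : j = 0 ∨ j = 1 ∨ j = 2 := by omega
      rcases hj3 with rfl | rfl | rfl
      · left; left; right
        exact hAA
      · right
        refine ⟨T (G^[3] (T^[1] (x 0, x 1, x 2))), ⟨_, G3_AA hAA, rfl⟩, ?_⟩
        have e1 : T (T (G^[3] (T^[1] (x 0, x 1, x 2)))) = G (T^[1] (x 0, x 1, x 2)) := by
          have e2 := Tit_Git (G_pos (Tit_pos hp 1)) 2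
          exact e2
        rw [e1]
        exact G_T hp
      · left; right
        refine ⟨G^[3] (T^[2] (x 0, x 1, x 2)), G3_AA hAA, ?_⟩
        have e1 : T (G^[3] (T^[2] (x 0, x 1, x 2))) = G^[2] (T^[2] (x 0, x 1, x 2)) := by
          rw [Function.iterate_succ_apply' G 2]
          exact T_G (Git_pos (Tit_pos hp 2) 2)
        rw [e1]
        exact Git_Tit hp 2
  · refine union_subset (union_subset (union_subset (c_sub P) AA_sub) ?_) ?_
    · rintro _ ⟨p, hp, rfl⟩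
      exact T_mem (AA_sub hp)
    · rintro _ ⟨_, ⟨p, hp, rfl⟩, rfl⟩
      exact T_mem (T_mem (AA_sub hp))

/-! ## The four parts are disjoint -/

theorem lim_c (P : Curve.Par) {p : ℝ × ℝ × ℝ} (hp : p ∈ range (Curve.c P)) :
    Tendsto (fun n => T^[3 * n] p) atTop (𝓝 (1 / 2, 1 / 2, 1 / 2)) := by
  obtain ⟨t, rfl⟩ := hp
  have h1 := Curve.c_zero_lim P t
  have h2 : Tendsto (fun n : ℕ => 3 * n) atTop atTop :=
    tendsto_atTop_mono (fun n => by simp only [id]; omega) tendsto_id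
  exact (h1.comp h2).congr fun n => (Curve.Tit_c P (3 * n) t).symm

theorem lim_A {p : ℝ × ℝ × ℝ} (hp : p ∈ AA) :
    Tendsto (fun n => T^[3 * n] p) atTop (𝓝 (0, 1, 1)) := by
  obtain ⟨w, hw, rfl⟩ := hp
  exact (Surf.S_zero_lim w).congr fun n => (Surf.Tit_S hw n).symm

theorem lim_T {p q : ℝ × ℝ × ℝ} (hq : 1 + q.2.2 + q.2.1 ≠ 0)
    (h : Tendsto (fun n => T^[3 * n] p) atTop (𝓝 q)) :
    Tendsto (fun n => T^[3 * n] (T p)) atTop (𝓝 (T q)) := by
  have h1 : Tendsto (fun n => T (T^[3 * n] p)) atTop (𝓝 (T q)) := (T_continuousAt hq).tendsto.comp h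
  refine h1.congr fun n => ?_
  rw [← Function.iterate_succ_apply' T, Function.iterate_succ_apply]

theorem T011 : T (0, 1, 1) = (1, 1, 0) := by
  simp only [T]
  norm_num

theorem T110 : T (1, 1, 0) = (1, 0, 1) := by
  simp only [T]
  norm_num

theorem lim_TA {p : ℝ × ℝ × ℝ} (hp : p ∈ T '' AA) :
    Tendsto (fun n => T^[3 * n] p) atTop (𝓝 (1, 1, 0)) := by
  obtain ⟨q, hq, rfl⟩ := hp
  rw [← T011]
  exact lim_T (by norm_num) (lim_A hq)

theorem lim_TTA {p : ℝ × ℝ × ℝ} (hp : p ∈ T '' (T '' AA)) :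
    Tendsto (fun n => T^[3 * n] p) atTop (𝓝 (1, 0, 1)) := by
  obtain ⟨q, hq, rfl⟩ := hp
  rw [← T110]
  exact lim_T (by norm_num) (lim_TA hq)

theorem disj_of_lim {A B : Set (ℝ × ℝ × ℝ)} {a b : ℝ × ℝ × ℝ}
    (hA : ∀ p ∈ A, Tendsto (fun n => T^[3 * n] p) atTop (𝓝 a))
    (hB : ∀ p ∈ B, Tendsto (fun n => T^[3 * n] p) atTop (𝓝 b)) (hab : a ≠ b) : Disjoint A B := by
  rw [Set.disjoint_left]
  intro p h1 h2
  exact hab (tendsto_nhds_unique (hA p h1) (hB p h2))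

theorem disj (P : Curve.Par) :
    Disjoint (range (Curve.c P)) AA ∧ Disjoint (range (Curve.c P)) (T '' AA) ∧
      Disjoint (range (Curve.c P)) (T '' (T '' AA)) ∧ Disjoint AA (T '' AA) ∧
      Disjoint AA (T '' (T '' AA)) ∧ Disjoint (T '' AA) (T '' (T '' AA)) := by
  refine ⟨disj_of_lim (fun p => lim_c P) (fun p => lim_A) ?_,
    disj_of_lim (fun p => lim_c P) (fun p => lim_TA) ?_,
    disj_of_lim (fun p => lim_c P) (fun p => lim_TTA) ?_,
    disj_of_lim (fun p => lim_A) (fun p => lim_TA) ?_,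
    disj_of_lim (fun p => lim_A) (fun p => lim_TTA) ?_,
    disj_of_lim (fun p => lim_TA) (fun p => lim_TTA) ?_⟩
  all_goals
    intro h
    rw [Prod.mk.injEq, Prod.mk.injEq] at h
    norm_num at h

/-! ## Monotone solutions -/

theorem monotone_iff (P : Curve.Par) {x : ℕ → ℝ} (h : IsSol x) :
    (x 0, x 1, x 2) ∈ range (Curve.c P) ↔ Monotone x ∨ Antitone x := by
  constructor
  · rintro ⟨t, ht⟩
    obtain ⟨h1, -, -⟩ := sol_c P h ht.symm
    have h2 : ∀ n, x n = Curve.f P (P.l ^ n * t) := fun n => congrArg Prod.fst (h1 n)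
    have hl0 := P.l0
    have hl1 := P.l1
    rcases le_total t 0 with h3 | h3
    · left
      refine monotone_nat_of_le_succ fun n => ?_
      rw [h2, h2]
      refine (Curve.f_strictMono P).monotone ?_
      have : 0 < P.l ^ n := by positivity
      rw [pow_succ]
      nlinarith [mul_nonneg this.le (neg_nonneg.2 h3)]
    · right
      refine antitone_nat_of_succ_le fun n => ?_
      rw [h2, h2]
      refine (Curve.f_strictMono P).monotone ?_
      have : 0 < P.l ^ n := by positivity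
      rw [pow_succ]
      nlinarith [mul_nonneg this.le h3]
  · intro hm
    -- the solution is bounded
    have hb : ∃ C, ∀ n, x n ≤ C := by
      rcases hm with hm | hm
      · by_contra hcon
        obtain ⟨j, -, -, h2, -⟩ := h.unbounded hcon
        have h3 : ∀ k, x 0 ≤ x (3 * k + j + 1) := fun k => hm (Nat.zero_le _)
        have h4 := ge_of_tendsto' h2 h3
        exact absurd (h.1 0) (not_lt.2 h4)
      · exact ⟨x 0, fun n => hm (Nat.zero_le _)⟩
    rcases h.bounded hb with h1 | ⟨j, -, h1, h2, h3⟩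
    · have h4 : Tendsto (fun n => T^[n] (x 0, x 1, x 2)) atTop (𝓝 (1 / 2, 1 / 2, 1 / 2)) := by
        have a1 := (tendsto_add_atTop_iff_nat 1).2 h1
        have a2 := (tendsto_add_atTop_iff_nat 2).2 h1
        exact (h1.prodMk_nhds (a1.prodMk_nhds a2)).congr fun n => (h.orbit n).symm
      obtain ⟨t, ht⟩ := Curve.mem_c P h.pos h4
      exact ⟨t, ht.symm⟩
    · exfalso
      rcases hm with hm | hm
      · have h4 : (1 : ℝ) ≤ 0 := by
          have h5 := (tendsto_add_atTop_iff_nat 1).2 h1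
          refine le_of_tendsto_of_tendsto' h2 h5 fun k => hm ?_
          omega
        linarith
      · have h4 : (1 : ℝ) ≤ 0 := le_of_tendsto_of_tendsto' h2 h1 fun k => hm (by omega)
        linarith

theorem exists_par : Nonempty Curve.Par := by
  have h1 : Continuous fun l : ℝ => 4 * l ^ 3 + l ^ 2 + l := by fun_prop
  obtain ⟨l, hl, he⟩ := intermediate_value_Icc (zero_le_one' ℝ) h1.continuousOn
    (show (4 : ℝ) ∈ Icc ((fun l : ℝ => 4 * l ^ 3 + l ^ 2 + l) 0)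
      ((fun l : ℝ => 4 * l ^ 3 + l ^ 2 + l) 1) by constructor <;> norm_num)
  simp only at he
  refine ⟨⟨l, lt_of_le_of_ne hl.1 ?_, lt_of_le_of_ne hl.2 ?_, he⟩⟩
  · rintro rfl
    norm_num at he
  · rintro rfl
    norm_num at he

end Pool.Agent.Lib.MP_b43024_an
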