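import Pool.Agent.Lib.MP_b43024_an.Basic
import Pool.Agent.Lib.MP_b43024_an.Abs2
import Pool.Agent.Lib.MP_b43024_an.Calc

/-!
# MP_b43024_an: the map of the recurrence, its inverse, and charts
-/

set_option autoImplicit false

namespace Pool.Agent.Lib.MP_b43024_an

open Filter Topology

/-- The map of the recurrence: `(x n, x (n + 1), x (n + 2)) ↦ (x (n + 1), x (n + 2), x (n + 3))`. -/
noncomputable def T (p : ℝ × ℝ × ℝ) : ℝ × ℝ × ℝ := (p.2.1, p.2.2, 2 * p.1 / (1 + p.2.2 + p.2.1))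

/-- The inverse of the map of the recurrence on the positive octant:
`(x (n + 1), x (n + 2), x (n + 3)) ↦ (x n, x (n + 1), x (n + 2))`. -/
noncomputable def G (p : ℝ × ℝ × ℝ) : ℝ × ℝ × ℝ := (p.2.2 * (1 + p.1 + p.2.1) / 2, p.1, p.2.1)

/-- The positive octant. -/
def Pos (p : ℝ × ℝ × ℝ) : Prop := 0 < p.1 ∧ 0 < p.2.1 ∧ 0 < p.2.2

theorem T_pos {p : ℝ × ℝ × ℝ} (h : Pos p) : Pos (T p) := by
  obtain ⟨h1, h2, h3⟩ := h
  refine ⟨h2, h3, ?_⟩
  change 0 < 2 * p.1 / (1 + p.2.2 + p.2.1)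
  positivity

theorem G_pos {p : ℝ × ℝ × ℝ} (h : Pos p) : Pos (G p) := by
  obtain ⟨h1, h2, h3⟩ := h
  refine ⟨?_, h1, h2⟩
  change 0 < p.2.2 * (1 + p.1 + p.2.1) / 2
  positivity

theorem Tit_pos {p : ℝ × ℝ × ℝ} (h : Pos p) (n : ℕ) : Pos (T^[n] p) := by
  induction n with
  | zero => exact h
  | succ n ih => rw [Function.iterate_succ_apply']; exact T_pos ih

theorem Git_pos {p : ℝ × ℝ × ℝ} (h : Pos p) (n : ℕ) : Pos (G^[n] p) := by
  induction n with
  | zero => exact h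
  | succ n ih => rw [Function.iterate_succ_apply']; exact G_pos ih

theorem G_T {p : ℝ × ℝ × ℝ} (h : Pos p) : G (T p) = p := by
  obtain ⟨h1, h2, h3⟩ := h
  obtain ⟨a, b, c⟩ := p
  simp only at h1 h2 h3
  simp only [T, G]
  have : 1 + c + b ≠ 0 := by positivity
  refine Prod.ext ?_ (Prod.ext rfl rfl)
  simp only
  field_simp
  ring

theorem T_G {p : ℝ × ℝ × ℝ} (h : Pos p) : T (G p) = p := by
  obtain ⟨h1, h2, h3⟩ := h
  obtain ⟨a, b, c⟩ := p
  simp only at h1 h2 h3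
  simp only [T, G]
  have : 1 + b + a ≠ 0 := by positivity
  refine Prod.ext rfl (Prod.ext rfl ?_)
  simp only
  field_simp
  ring

theorem Git_Tit {p : ℝ × ℝ × ℝ} (h : Pos p) (n : ℕ) : G^[n] (T^[n] p) = p := by
  induction n with
  | zero => rfl
  | succ n ih =>
    rw [Function.iterate_succ_apply, Function.iterate_succ_apply', G_T (Tit_pos h n), ih]

theorem Tit_Git {p : ℝ × ℝ × ℝ} (h : Pos p) (n : ℕ) : T^[n] (G^[n] p) = p := by
  induction n with
  | zero => rfl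
  | succ n ih =>
    rw [Function.iterate_succ_apply, Function.iterate_succ_apply', T_G (Git_pos h n), ih]

theorem G_injOn : Set.InjOn G {p | Pos p} := by
  intro p hp q hq h
  rw [← T_G hp, ← T_G hq, h]

theorem G_continuous : Continuous G := by
  unfold G
  fun_prop

theorem T_continuousAt {p : ℝ × ℝ × ℝ} (h : 1 + p.2.2 + p.2.1 ≠ 0) : ContinuousAt T p := by
  unfold T
  fun_prop (disch := exact h)

/-- A chart: a conjugation of `g` with the map of `U`. -/
structure Chart {W Z : Type*} [NormedAddCommGroup W] [NormedSpace ℝ W] [NormedAddCommGroup Z]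
    [NormedSpace ℝ Z] (U : UD W Z) (g : ℝ × ℝ × ℝ → ℝ × ℝ × ℝ) where
  Ψ : W × Z → ℝ × ℝ × ℝ
  Inv : ℝ × ℝ × ℝ → W × Z
  Ψc : Continuous Ψ
  Ic : Continuous Inv
  left : ∀ x, Inv (Ψ x) = x
  right : ∀ p, Ψ (Inv p) = p
  conj : ∀ x, g (Ψ x) = Ψ (U.H x)

namespace Chart

set_option linter.unusedSectionVars false

variable {W Z : Type*} [NormedAddCommGroup W] [NormedSpace ℝ W] [NormedAddCommGroup Z]
    [NormedSpace ℝ Z] {U : UD W Z} {g : ℝ × ℝ × ℝ → ℝ × ℝ × ℝ} (c : Chart U g)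

theorem conj_it (n : ℕ) (x : W × Z) : g^[n] (c.Ψ x) = c.Ψ (U.H^[n] x) := by
  induction n with
  | zero => rfl
  | succ n ih => rw [Function.iterate_succ_apply', Function.iterate_succ_apply', ih, c.conj]

variable [CompleteSpace W] [CompleteSpace Z]

/-- the parametrisation -/
noncomputable def par (w : W) : ℝ × ℝ × ℝ := c.Ψ (U.Φ w)

theorem par_lim (w : W) :
    Tendsto (fun k => g^[k] (c.Ψ (U.B^[k] w, 0))) atTop (𝓝 (c.par w)) := by
  have h1 := (c.Ψc.tendsto _).comp (U.Φ_spec w)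
  refine h1.congr fun k => ?_
  rw [c.conj_it]
  rfl

theorem par_continuous : Continuous c.par := c.Ψc.comp U.Φ_continuous

theorem g_par (w : W) : g (c.par w) = c.par (U.A w) := by
  unfold par
  rw [c.conj, U.Φ_A]

theorem git_par (n : ℕ) (w : W) : g^[n] (c.par (U.B^[n] w)) = c.par w := by
  unfold par
  rw [c.conj_it, U.Φ_Bit]

theorem par_zero : c.par 0 = c.Ψ 0 := by
  unfold par
  rw [U.Φ_zero]

theorem Bit_tendsto (w : W) : Tendsto (fun n => U.B^[n] w) atTop (𝓝 0) := by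
  have h1 : Tendsto (fun m : ℕ => U.r ^ m * ‖w‖) atTop (𝓝 (0 * ‖w‖)) :=
    (tendsto_pow_atTop_nhds_zero_of_lt_one U.r0.le U.r1).mul_const _
  rw [zero_mul] at h1
  exact squeeze_zero_norm (fun m => U.norm_Bit m w) h1

theorem par_Bit_tendsto (w : W) : Tendsto (fun n => c.par (U.B^[n] w)) atTop (𝓝 (c.Ψ 0)) := by
  have h1 := (c.par_continuous.tendsto 0).comp (Bit_tendsto (U := U) w)
  rw [c.par_zero] at h1
  exact h1

/-- **completeness** -/
theorem par_complete (p : ℕ → ℝ × ℝ × ℝ) (hp : ∀ n, g (p (n + 1)) = p n)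
    (h0 : Tendsto p atTop (𝓝 (c.Ψ 0))) : ∃ w, ∀ n, p n = c.par (U.B^[n] w) := by
  have h1 : ∀ n, U.H (c.Inv (p (n + 1))) = c.Inv (p n) := by
    intro n
    rw [← hp n]
    conv_rhs => rw [← c.right (p (n + 1)), c.conj, c.left]
  have h2 : Tendsto (fun n => c.Inv (p n)) atTop (𝓝 0) := by
    have h1 := (c.Ic.tendsto _).comp h0
    rw [c.left] at h1
    exact h1
  obtain ⟨w, hw⟩ := U.complete (fun n => c.Inv (p n)) h1 h2
  refine ⟨w, fun n => ?_⟩
  unfold par
  rw [← hw, c.right]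

/-- injectivity, for two points whose backward orbits stay in a set on which `g` is injective -/
theorem par_inj {s : Set (ℝ × ℝ × ℝ)} (hs : Set.InjOn g s) {w w' : W}
    (hw : ∀ n, c.par (U.B^[n] w) ∈ s) (hw' : ∀ n, c.par (U.B^[n] w') ∈ s)
    (h : c.par w = c.par w') : w = w' := by
  have h1 : ∀ n, c.par (U.B^[n] w) = c.par (U.B^[n] w') := by
    intro n
    induction n with
    | zero => exact h
    | succ n ih =>
      have e : ∀ v : W, g (c.par (U.B^[n + 1] v)) = c.par (U.B^[n] v) := by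
        intro v
        rw [c.g_par, Function.iterate_succ_apply', U.hAB]
      apply hs (hw (n + 1)) (hw' (n + 1))
      rw [e, e, ih]
  have hΨ : ∀ {x y : W × Z}, c.Ψ x = c.Ψ y → x = y := fun {x y} h => by
    rw [← c.left x, h, c.left]
  have h2 : ∀ v : W, ∀ᶠ n : ℕ in atTop, ‖U.B^[n] v‖ ≤ U.ρ1 := by
    intro v
    have h1 : Tendsto (fun m : ℕ => U.r ^ m * ‖v‖) atTop (𝓝 (0 * ‖v‖)) :=
      (tendsto_pow_atTop_nhds_zero_of_lt_one U.r0.le U.r1).mul_const _
    rw [zero_mul] at h1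
    filter_upwards [h1.eventually (ge_mem_nhds U.ρ1_pos)] with m hm
    exact (U.norm_Bit m v).trans hm
  obtain ⟨n, hn, hn'⟩ := ((h2 w).and (h2 w')).exists
  have h3 := U.Φ_inj_small hn hn' (hΨ (h1 n))
  have h4 : ∀ m (v : W), U.A^[m] (U.B^[m] v) = v := by
    intro m
    induction m with
    | zero => intro v; rfl
    | succ m ih =>
      intro v
      rw [Function.iterate_succ_apply, Function.iterate_succ_apply', U.hAB, ih]
  rw [← h4 n w, h3, h4]

end Chart

end Pool.Agent.Lib.MP_b43024_an
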