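import Pool.Agent.Lib.MP_b43024_an.Curve

/-!
# MP_b43024_an: the chart at the cycle `(0, 1, 1)`
-/

set_option autoImplicit false

namespace Pool.Agent.Lib.MP_b43024_an

open Filter Topology

namespace Surf

/-- the number `η = (√17 - 1) / 4` -/
noncomputable def eta : ℝ := (√17 - 1) / 4

theorem eta_eq : 2 * eta ^ 2 + eta = 2 := by
  have h : √17 ^ 2 = 17 := Real.sq_sqrt (by norm_num)
  unfold eta
  linear_combination (1 / 8) * h

theorem eta_lower : 2 / 3 < eta := by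
  unfold eta
  have h : (11 / 3 : ℝ) < √17 := Real.lt_sqrt_of_sq_lt (by norm_num)
  linarith

theorem eta_upper : eta < 1 := by
  have h1 := eta_eq
  have h2 := eta_lower
  nlinarith

/-- the inverse of `η ^ 2` -/
noncomputable def chi : ℝ := 5 / 4 + eta / 2

theorem chi_mul : chi * eta ^ 2 = 1 := by
  have h1 := eta_eq
  unfold chi
  linear_combination (1 / 4 * eta + 1 / 2) * h1

theorem eta_sq_le : eta ^ 2 ≤ 2 / 3 := by
  have h1 := eta_eq
  have h2 := eta_lower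
  linarith

/-- normalisation -/
noncomputable def kap : ℝ := 1 / (1 + eta ^ 2)

theorem kap_mul : (1 + eta ^ 2) * kap = 1 := by
  unfold kap
  have : 1 + eta ^ 2 ≠ 0 := by positivity
  field_simp

/-- the coordinates -/
noncomputable def Inv (h : ℝ × ℝ × ℝ) : (ℝ × ℝ) × ℝ :=
  ((h.1, ((h.2.1 - 1 + 5 * h.1) + eta * (h.2.2 - 1 + 4 * h.1)) * kap),
    (eta * (h.2.1 - 1 + 5 * h.1) - (h.2.2 - 1 + 4 * h.1)) * kap)

noncomputable def h1 (x : (ℝ × ℝ) × ℝ) : ℝ := x.1.1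

noncomputable def h2 (x : (ℝ × ℝ) × ℝ) : ℝ := -5 * x.1.1 + x.1.2 + eta * x.2

noncomputable def h3 (x : (ℝ × ℝ) × ℝ) : ℝ := -4 * x.1.1 + eta * x.1.2 - x.2

/-- the inverse of the coordinates -/
noncomputable def Ψ (x : (ℝ × ℝ) × ℝ) : ℝ × ℝ × ℝ := (h1 x, 1 + h2 x, 1 + h3 x)

theorem left (x : (ℝ × ℝ) × ℝ) : Inv (Ψ x) = x := by
  have e := kap_mul
  refine Prod.ext (Prod.ext rfl ?_) ?_
  · simp only [Inv, Ψ, h1, h2, h3]
    linear_combination x.1.2 * e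
  · simp only [Inv, Ψ, h1, h2, h3]
    linear_combination x.2 * e

theorem right (p : ℝ × ℝ × ℝ) : Ψ (Inv p) = p := by
  have e := kap_mul
  refine Prod.ext rfl (Prod.ext ?_ ?_)
  · simp only [Inv, Ψ, h1, h2, h3]
    linear_combination (p.2.1 - 1 + 5 * p.1) * e
  · simp only [Inv, Ψ, h1, h2, h3]
    linear_combination (p.2.2 - 1 + 4 * p.1) * e

theorem Ψ_cont : Continuous Ψ := by
  unfold Ψ h3 h2 h1
  fun_prop

theorem Inv_cont : Continuous Inv := by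
  unfold Inv
  fun_prop

/-- the third iterate of `G` -/
theorem G3 (a b c : ℝ) : G^[3] (a, b, c) = (a * (1 + b * (1 + c * (1 + a + b) / 2 + a) / 2 +
    c * (1 + a + b) / 2) / 2, b * (1 + c * (1 + a + b) / 2 + a) / 2, c * (1 + a + b) / 2) := by
  simp only [Function.iterate_succ, Function.iterate_zero, Function.comp, G, id]

/-- the map in the coordinates -/
noncomputable def H (x : (ℝ × ℝ) × ℝ) : (ℝ × ℝ) × ℝ := Inv (G^[3] (Ψ x))

noncomputable def q3 (x : (ℝ × ℝ) × ℝ) : ℝ := h3 x * (h1 x + h2 x)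

noncomputable def K3 (x : (ℝ × ℝ) × ℝ) : ℝ := h3 x + (1 / 2) * (h1 x + h2 x) + (1 / 2) * q3 x

noncomputable def q2 (x : (ℝ × ℝ) × ℝ) : ℝ := h2 x * (K3 x + h1 x)

noncomputable def K2 (x : (ℝ × ℝ) × ℝ) : ℝ := h2 x + (1 / 2) * (K3 x + h1 x) + (1 / 2) * q2 x

noncomputable def q1 (x : (ℝ × ℝ) × ℝ) : ℝ := h1 x * (K2 x + K3 x)

noncomputable def v1 : (ℝ × ℝ) × ℝ := ((1 / 2, (5 + 4 * eta) * kap / 2), (5 * eta - 4) * kap / 2)

noncomputable def v2 : (ℝ × ℝ) × ℝ := ((0, kap / 2), eta * kap / 2)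

noncomputable def v3 : (ℝ × ℝ) × ℝ := ((0, (1 / 2 + eta) * kap / 2), (eta / 2 - 1) * kap / 2)

theorem G3_Ψ (x : (ℝ × ℝ) × ℝ) : G^[3] (Ψ x) = (3 / 2 * h1 x + (1 / 2) * q1 x, 1 + K2 x, 1 + K3 x) := by
  rw [Ψ, G3]
  simp only [q1, K2, q2, K3, q3]
  refine Prod.ext ?_ (Prod.ext ?_ ?_) <;> simp only <;> ring

theorem H_eq (x : (ℝ × ℝ) × ℝ) : H x = ((3 / 2 * x.1.1, chi * x.1.2), eta ^ 2 * x.2) +
    (q1 x • v1 + (q2 x • v2 + q3 x • v3)) := by
  have e := kap_mul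
  have e2 := eta_eq
  rw [H, G3_Ψ]
  generalize hq1 : q1 x = Q1
  have hK2 : K2 x = h2 x + (1 / 2) * (K3 x + h1 x) + (1 / 2) * q2 x := rfl
  have hK3 : K3 x = h3 x + (1 / 2) * (h1 x + h2 x) + (1 / 2) * q3 x := rfl
  rw [hK2, hK3]
  generalize hq2 : q2 x = Q2
  generalize hq3 : q3 x = Q3
  simp only [Inv, v1, v2, v3, h1, h2, h3, Prod.smul_mk, Prod.mk_add_mk, smul_eq_mul]
  refine Prod.ext (Prod.ext ?_ ?_) ?_
  · simp only
    ring
  · simp only [chi]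
    linear_combination (5 / 4 + eta / 2) * x.1.2 * e +
      (-(kap * x.1.2 * eta / 4) + kap * x.2 / 4) * e2
  · simp only
    linear_combination eta ^ 2 * x.2 * e +
      (kap * x.1.2 / 4 - kap * x.2 * (eta ^ 2 + 1 - eta / 2) / 2) * e2

theorem lv_s : LV (fun x : (ℝ × ℝ) × ℝ => x.1.1) :=
  LV.of_bound (fun _ _ => rfl) 1
    (fun h => by rw [one_mul]; exact (norm_fst_le h.1).trans (norm_fst_le h)) zero_le_one

theorem lv_t : LV (fun x : (ℝ × ℝ) × ℝ => x.1.2) :=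
  LV.of_bound (fun _ _ => rfl) 1
    (fun h => by rw [one_mul]; exact (norm_snd_le h.1).trans (norm_fst_le h)) zero_le_one

theorem lv_u : LV (fun x : (ℝ × ℝ) × ℝ => x.2) :=
  LV.of_bound (fun _ _ => rfl) 1 (fun h => by rw [one_mul]; exact norm_snd_le h) zero_le_one

theorem lv_h1 : LV h1 := lv_s

theorem lv_h2 : LV h2 := by
  refine ((lv_s.const_mul (-5)).add (lv_t.add (lv_u.const_mul eta))).congr fun x => ?_
  unfold h2
  ring

theorem lv_h3 : LV h3 := by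
  refine ((lv_s.const_mul (-4)).add ((lv_t.const_mul eta).add (lv_u.const_mul (-1)))).congr
    fun x => ?_
  unfold h3
  ring

theorem qv_q3 : QV q3 := (lv_h3.mul (lv_h1.add lv_h2)).congr fun _ => rfl

theorem lv_q3 : LV q3 := (lv_h3.mul_lv (lv_h1.add lv_h2)).congr fun _ => rfl

theorem lv_K3 : LV K3 := by
  refine (lv_h3.add (((lv_h1.add lv_h2).const_mul (1 / 2)).add (lv_q3.const_mul (1 / 2)))).congr
    fun x => ?_
  unfold K3
  ring

theorem qv_q2 : QV q2 := (lv_h2.mul (lv_K3.add lv_h1)).congr fun _ => rfl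

theorem lv_q2 : LV q2 := (lv_h2.mul_lv (lv_K3.add lv_h1)).congr fun _ => rfl

theorem lv_K2 : LV K2 := by
  refine (lv_h2.add (((lv_K3.add lv_h1).const_mul (1 / 2)).add (lv_q2.const_mul (1 / 2)))).congr
    fun x => ?_
  unfold K2
  ring

theorem qv_q1 : QV q1 := (lv_h1.mul (lv_K2.add lv_K3)).congr fun _ => rfl

theorem lip : ∃ K δ : ℝ, 0 ≤ K ∧ 0 < δ ∧ ∀ ρ : ℝ, ρ ≤ δ → ∀ h h' : (ℝ × ℝ) × ℝ, ‖h‖ ≤ ρ →
    ‖h'‖ ≤ ρ → ‖(H h - H h') - ((3 / 2 * (h - h').1.1, chi * (h - h').1.2), eta ^ 2 * (h - h').2)‖ ≤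
      K * ρ * ‖h - h'‖ := by
  refine exists_lip_of (L := fun h : (ℝ × ℝ) × ℝ => ((3 / 2 * h.1.1, chi * h.1.2), eta ^ 2 * h.2))
    (fun h h' => ?_) ((qv_q1.smul_const v1).add ((qv_q2.smul_const v2).add (qv_q3.smul_const v3)))
    H_eq
  simp only [Prod.fst_sub, Prod.snd_sub, mul_sub, Prod.mk_sub_mk]

theorem H_zero : H 0 = 0 := by
  rw [H_eq]
  have e1 : h1 0 = 0 := lv_h1.1
  have e2 : h2 0 = 0 := lv_h2.1
  have e3 : q3 0 = 0 := lv_q3.1
  have e4 : q2 0 = 0 := lv_q2.1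
  have e5 : q1 0 = 0 := by rw [q1, e1, zero_mul]
  rw [e3, e4, e5]
  simp

/-- the third iterate of the map at the cycle -/
noncomputable def ud : UD (ℝ × ℝ) ℝ where
  H := H
  A := LinearMap.prodMap ((3 / 2 : ℝ) • LinearMap.id) (chi • LinearMap.id)
  B := LinearMap.prodMap ((2 / 3 : ℝ) • LinearMap.id) ((eta ^ 2) • LinearMap.id)
  D := (eta ^ 2) • LinearMap.id
  r := 2 / 3
  θ := eta ^ 2
  M := chi
  K := lip.choose
  δ := lip.choose_spec.choose
  hAB := fun w => by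
    have e := chi_mul
    refine Prod.ext ?_ ?_
    · change (3 / 2 : ℝ) * (2 / 3 * w.1) = w.1
      ring
    · change chi * (eta ^ 2 * w.2) = w.2
      rw [← mul_assoc, e, one_mul]
  hBA := fun w => by
    have e := chi_mul
    refine Prod.ext ?_ ?_
    · change (2 / 3 : ℝ) * (3 / 2 * w.1) = w.1
      ring
    · change eta ^ 2 * (chi * w.2) = w.2
      rw [← mul_assoc, mul_comm (eta ^ 2), e, one_mul]
  hB := fun w => by
    change ‖(((2 / 3 : ℝ) * w.1, eta ^ 2 * w.2) : ℝ × ℝ)‖ ≤ 2 / 3 * ‖w‖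
    rw [Prod.norm_mk]
    refine max_le ?_ ?_
    · rw [norm_mul, Real.norm_of_nonneg (by norm_num : (0 : ℝ) ≤ 2 / 3)]
      exact mul_le_mul_of_nonneg_left (norm_fst_le w) (by norm_num)
    · rw [norm_mul, Real.norm_of_nonneg (sq_nonneg eta)]
      exact mul_le_mul eta_sq_le (norm_snd_le w) (norm_nonneg _) (by norm_num)
  hA := fun w => by
    have hchi : 3 / 2 ≤ chi := by
      have := eta_lower
      unfold chi
      linarith
    change ‖(((3 / 2 : ℝ) * w.1, chi * w.2) : ℝ × ℝ)‖ ≤ chi * ‖w‖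
    rw [Prod.norm_mk]
    refine max_le ?_ ?_
    · rw [norm_mul, Real.norm_of_nonneg (by norm_num : (0 : ℝ) ≤ 3 / 2)]
      exact mul_le_mul hchi (norm_fst_le w) (norm_nonneg _) (by linarith)
    · rw [norm_mul, Real.norm_of_nonneg (by linarith)]
      exact mul_le_mul_of_nonneg_left (norm_snd_le w) (by linarith)
  hD := fun z => by
    change ‖eta ^ 2 * z‖ ≤ eta ^ 2 * ‖z‖
    rw [norm_mul, Real.norm_of_nonneg (sq_nonneg eta)]
  r0 := by norm_num
  r1 := by norm_num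
  θ0 := sq_nonneg _
  θ1 := by
    have := eta_sq_le
    linarith
  M1 := by
    have := eta_lower
    unfold chi
    linarith
  Mr := by
    have := eta_upper
    unfold chi
    linarith
  K0 := lip.choose_spec.choose_spec.1
  δ0 := lip.choose_spec.choose_spec.2.1
  cont := Inv_cont.comp ((G_continuous.iterate 3).comp Ψ_cont)
  H0 := H_zero
  lip := fun ρ hρ h h' hh hh' => by
    have h0 := lip.choose_spec.choose_spec.2.2 ρ hρ h h' hh hh'
    have e : ((LinearMap.prodMap ((3 / 2 : ℝ) • LinearMap.id) (chi • LinearMap.id) :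
        ℝ × ℝ →ₗ[ℝ] ℝ × ℝ) (h.1 - h'.1), ((eta ^ 2) • LinearMap.id : ℝ →ₗ[ℝ] ℝ) (h.2 - h'.2)) =
        ((3 / 2 * (h - h').1.1, chi * (h - h').1.2), eta ^ 2 * (h - h').2) := rfl
    rw [e]
    exact h0

/-- the chart at the cycle -/
noncomputable def chart : Chart ud (G^[3]) where
  Ψ := Ψ
  Inv := Inv
  Ψc := Ψ_cont
  Ic := Inv_cont
  left := left
  right := right
  conj := fun x => (right (G^[3] (Ψ x))).symm

theorem Ψ_zero : Ψ 0 = (0, 1, 1) := by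
  have e1 : h1 0 = 0 := lv_h1.1
  have e2 : h2 0 = 0 := lv_h2.1
  have e3 : h3 0 = 0 := lv_h3.1
  simp only [Ψ, e1, e2, e3, add_zero]

theorem Bit (n : ℕ) (w : ℝ × ℝ) : ud.B^[n] w = ((2 / 3) ^ n * w.1, eta ^ (2 * n) * w.2) := by
  induction n with
  | zero => simp
  | succ n ih =>
    rw [Function.iterate_succ_apply', ih]
    change ((2 / 3 : ℝ) * ((2 / 3) ^ n * w.1), eta ^ 2 * (eta ^ (2 * n) * w.2)) = _
    refine Prod.ext ?_ ?_ <;> simp only <;> ring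

/-- the surface -/
noncomputable def S (w : ℝ × ℝ) : ℝ × ℝ × ℝ := chart.par w

theorem S_lim (w : ℝ × ℝ) : Tendsto (fun n => (G^[3])^[n] ((2 / 3) ^ n * w.1,
    1 - 5 * ((2 / 3) ^ n * w.1) + eta ^ (2 * n) * w.2,
    1 - 4 * ((2 / 3) ^ n * w.1) + eta ^ (2 * n + 1) * w.2)) atTop (𝓝 (S w)) := by
  refine (chart.par_lim w).congr fun n => ?_
  rw [Bit]
  change (G^[3])^[n] (Ψ (((2 / 3) ^ n * w.1, eta ^ (2 * n) * w.2), 0)) = _
  congr 1
  simp only [Ψ, h1, h2, h3]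
  refine Prod.ext rfl (Prod.ext ?_ ?_) <;> simp only <;> ring

theorem S_continuous : Continuous S := chart.par_continuous

end Surf

end Pool.Agent.Lib.MP_b43024_an
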