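import Pool.Agent.Lib.MP_b43024_an.Surf

/-!
# MP_b43024_an: the surfaces
-/

set_option autoImplicit false

namespace Pool.Agent.Lib.MP_b43024_an

open Filter Topology

theorem UD.Φ_asymp {W Z : Type*} [NormedAddCommGroup W] [NormedSpace ℝ W] [NormedAddCommGroup Z]
    [NormedSpace ℝ Z] (U : UD W Z) [CompleteSpace W] [CompleteSpace Z] (w : W) :
    ∀ᶠ n : ℕ in atTop, ‖U.Φ (U.B^[n] w) - (U.B^[n] w, 0)‖ ≤ U.C * (U.r ^ n * ‖w‖) ^ 2 := by
  have h1 : Tendsto (fun m : ℕ => U.r ^ m * ‖w‖) atTop (𝓝 (0 * ‖w‖)) :=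
    (tendsto_pow_atTop_nhds_zero_of_lt_one U.r0.le U.r1).mul_const _
  rw [zero_mul] at h1
  filter_upwards [h1.eventually (ge_mem_nhds U.ρ0_pos)] with n hn
  have h2 := U.norm_Bit n w
  have h3 := U.Φ_near hn h2
  refine h3.trans ?_
  have hC := U.C_nonneg
  have hr := U.r0
  calc U.C * (U.r ^ n * ‖w‖) * ‖U.B^[n] w‖ ≤ U.C * (U.r ^ n * ‖w‖) * (U.r ^ n * ‖w‖) :=
        mul_le_mul_of_nonneg_left h2 (by positivity)
    _ = _ := by ring

namespace Surf

/-- the contraction of the parameters -/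
noncomputable def b (n : ℕ) (w : ℝ × ℝ) : ℝ × ℝ := ((2 / 3) ^ n * w.1, eta ^ (2 * n) * w.2)

theorem S_Git (n : ℕ) (w : ℝ × ℝ) : (G^[3])^[n] (S (b n w)) = S w := by
  have := chart.git_par n w
  rwa [Bit] at this

theorem S_zero_lim (w : ℝ × ℝ) : Tendsto (fun n : ℕ => S (b n w)) atTop (𝓝 (0, 1, 1)) := by
  have h1 := chart.par_Bit_tendsto w
  have h2 : chart.Ψ 0 = (0, 1, 1) := Ψ_zero
  rw [h2] at h1
  refine h1.congr fun n => ?_
  rw [Bit]
  rfl

/-- the coordinates of the point `S (b n w)` -/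
noncomputable def X (w : ℝ × ℝ) (n : ℕ) : (ℝ × ℝ) × ℝ := ud.Φ (b n w)

theorem S_eq (w : ℝ × ℝ) (n : ℕ) : S (b n w) = Ψ (X w n) := rfl

theorem X_asymp (w : ℝ × ℝ) :
    ∀ᶠ n : ℕ in atTop, ‖X w n - (b n w, 0)‖ ≤ ud.C * ((2 / 3) ^ n * ‖w‖) ^ 2 := by
  filter_upwards [ud.Φ_asymp w] with n hn
  rw [Bit] at hn
  exact hn

/-- small errors, divided by `a ^ n` -/
theorem err_div {a : ℝ} (ha : 4 / 9 < a) {w : ℝ × ℝ} {f : (ℝ × ℝ) × ℝ → ℝ}
    (hf : ∀ x y, f (x - y) = f x - f y) (hb : ∀ x, |f x| ≤ ‖x‖) :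
    Tendsto (fun n => (f (X w n) - f (b n w, 0)) / a ^ n) atTop (𝓝 0) := by
  have ha0 : 0 < a := by linarith
  have h1 : Tendsto (fun n : ℕ => ud.C * ‖w‖ ^ 2 * (4 / 9 / a) ^ n) atTop (𝓝 0) := by
    have h2 : 4 / 9 / a < 1 := by
      rw [div_lt_one ha0]
      exact ha
    have := (tendsto_pow_atTop_nhds_zero_of_lt_one (by positivity) h2).const_mul
      (ud.C * ‖w‖ ^ 2)
    rwa [mul_zero] at this
  refine squeeze_zero_norm' ?_ h1
  filter_upwards [X_asymp w] with n hn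
  rw [← hf, norm_div, Real.norm_eq_abs, Real.norm_of_nonneg (by positivity : (0 : ℝ) ≤ a ^ n),
    div_le_iff₀ (by positivity)]
  refine (hb _).trans (hn.trans (le_of_eq ?_))
  rw [div_pow (4 / 9 : ℝ) a, mul_pow, ← pow_mul, mul_comm n 2, pow_mul]
  have : a ^ n ≠ 0 := by positivity
  field_simp
  norm_num
  ring

theorem err_s (w : ℝ × ℝ) :
    Tendsto (fun n => (S (b n w)).1 / (2 / 3) ^ n) atTop (𝓝 w.1) := by
  have h1 := (err_div (a := 2 / 3) (w := w) (by norm_num) (f := fun x => x.1.1)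
    (fun _ _ => rfl) (fun h => (norm_fst_le h.1).trans (norm_fst_le h))).add_const w.1
  rw [zero_add] at h1
  refine h1.congr fun n => ?_
  have h2 : (S (b n w)).1 = (X w n).1.1 := rfl
  have h3 : ((b n w, (0 : ℝ)) : (ℝ × ℝ) × ℝ).1.1 = (2 / 3) ^ n * w.1 := rfl
  have h4 : ((2 : ℝ) / 3) ^ n ≠ 0 := by positivity
  rw [h2, h3]
  field_simp
  ring

theorem err_t (w : ℝ × ℝ) :
    Tendsto (fun n => ((S (b n w)).2.1 - 1 + 5 * (S (b n w)).1) / eta ^ (2 * n)) atTop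
      (𝓝 w.2) := by
  have he : 4 / 9 < eta ^ 2 := by
    have := eta_lower
    nlinarith
  have h1 := err_div (a := eta ^ 2) (w := w) he (f := fun x => x.1.2)
    (fun _ _ => rfl) (fun h => (norm_snd_le h.1).trans (norm_fst_le h))
  have h2 := (err_div (a := eta ^ 2) (w := w) he (f := fun x => x.2)
    (fun _ _ => rfl) (fun h => norm_snd_le h)).const_mul eta
  have h3 := (h1.add h2).add_const w.2
  rw [mul_zero, zero_add, zero_add] at h3
  refine h3.congr fun n => ?_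
  have e1 : (S (b n w)).2.1 - 1 + 5 * (S (b n w)).1 = (X w n).1.2 + eta * (X w n).2 := by
    rw [S_eq]
    simp only [Ψ, Surf.h1, Surf.h2]
    ring
  have e2 : ((b n w, (0 : ℝ)) : (ℝ × ℝ) × ℝ).1.2 = eta ^ (2 * n) * w.2 := rfl
  have e3 : ((b n w, (0 : ℝ)) : (ℝ × ℝ) × ℝ).2 = 0 := rfl
  have h4 : 0 < eta := by linarith [eta_lower]
  have h5 : eta ^ (2 * n) ≠ 0 := by positivity
  rw [e1, e2, e3, ← pow_mul]
  field_simp
  ring

theorem eventually_pos23 (w : ℝ × ℝ) :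
    ∀ᶠ n : ℕ in atTop, 0 < (S (b n w)).2.1 ∧ 0 < (S (b n w)).2.2 := by
  have h1 := S_zero_lim w
  have h2 : Tendsto (fun n : ℕ => (S (b n w)).2.1) atTop (𝓝 1) :=
    ((continuous_fst.comp continuous_snd).tendsto _).comp h1
  have h3 : Tendsto (fun n : ℕ => (S (b n w)).2.2) atTop (𝓝 1) :=
    ((continuous_snd.comp continuous_snd).tendsto _).comp h1
  filter_upwards [h2.eventually (lt_mem_nhds zero_lt_one), h3.eventually (lt_mem_nhds zero_lt_one)]
    with n e1 e2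
  exact ⟨e1, e2⟩

theorem G3it (n : ℕ) (p : ℝ × ℝ × ℝ) : (G^[3])^[n] p = G^[3 * n] p := by
  rw [Function.iterate_mul]

theorem T3it (n : ℕ) (p : ℝ × ℝ × ℝ) : (T^[3])^[n] p = T^[3 * n] p := by
  rw [Function.iterate_mul]

theorem S_pos {w : ℝ × ℝ} (hw : 0 < w.1) : Pos (S w) := by
  have h1 := (err_s w).eventually (lt_mem_nhds hw)
  obtain ⟨n, hn, hn2⟩ := (h1.and (eventually_pos23 w)).exists
  have h2 : 0 < (S (b n w)).1 := by
    have h3 : (0 : ℝ) < (2 / 3) ^ n := by positivity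
    have h4 : (S (b n w)).1 = (S (b n w)).1 / (2 / 3) ^ n * (2 / 3) ^ n := by
      field_simp
    rw [h4]
    exact mul_pos hn h3
  have h3 : Pos (S (b n w)) := ⟨h2, hn2.1, hn2.2⟩
  rw [← S_Git n w, G3it]
  exact Git_pos h3 _

theorem G3_face (n : ℕ) : ∀ p : ℝ × ℝ × ℝ, p.1 = 0 → ((G^[3])^[n] p).1 = 0 := by
  induction n with
  | zero => intro p hp; exact hp
  | succ n ih =>
    intro p hp
    rw [Function.iterate_succ_apply]
    apply ih
    obtain ⟨a, b, c⟩ := p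
    simp only at hp
    rw [G3, hp]
    simp

theorem S_face (t : ℝ) : (S (0, t)).1 = 0 := by
  have h1 : Tendsto (fun n => ((G^[3])^[n] ((2 / 3) ^ n * (0 : ℝ),
      1 - 5 * ((2 / 3) ^ n * (0 : ℝ)) + eta ^ (2 * n) * t,
      1 - 4 * ((2 / 3) ^ n * (0 : ℝ)) + eta ^ (2 * n + 1) * t)).1) atTop (𝓝 (S (0, t)).1) :=
    (continuous_fst.tendsto _).comp (S_lim (0, t))
  refine tendsto_nhds_unique h1 ?_
  refine tendsto_const_nhds.congr fun n => ?_
  rw [G3_face]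
  simp

theorem S_neg {w : ℝ × ℝ} (hw : w.1 < 0) : ∃ n, (S (b n w)).1 < 0 := by
  have h1 := (err_s w).eventually (gt_mem_nhds hw)
  obtain ⟨n, hn⟩ := h1.exists
  refine ⟨n, ?_⟩
  have h3 : (0 : ℝ) < (2 / 3) ^ n := by positivity
  have h4 : (S (b n w)).1 = (S (b n w)).1 / (2 / 3) ^ n * (2 / 3) ^ n := by
    field_simp
  rw [h4]
  exact mul_neg_of_neg_of_pos hn h3

theorem b_pos {w : ℝ × ℝ} (hw : 0 < w.1) (n : ℕ) : 0 < (b n w).1 := by
  change 0 < (2 / 3) ^ n * w.1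
  positivity

theorem Tit_S {w : ℝ × ℝ} (hw : 0 < w.1) (n : ℕ) : T^[3 * n] (S w) = S (b n w) := by
  rw [← S_Git n w, G3it, Tit_Git (S_pos (b_pos hw n))]

theorem S_inj {w w' : ℝ × ℝ} (hw : 0 < w.1) (hw' : 0 < w'.1) (h : S w = S w') : w = w' := by
  have hG : Set.InjOn (G^[3]) {p | Pos p} := by
    intro p hp q hq h
    rw [← Tit_Git hp 3, ← Tit_Git hq 3, h]
  refine chart.par_inj hG (fun n => ?_) (fun n => ?_) h
  · rw [Bit]
    exact S_pos (b_pos hw n)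
  · rw [Bit]
    exact S_pos (b_pos hw' n)

/-- the points whose orbits under the third iterate converge to the cycle -/
theorem mem_S {p : ℝ × ℝ × ℝ} (hp : Pos p)
    (h : Tendsto (fun n => T^[3 * n] p) atTop (𝓝 (0, 1, 1))) : ∃ w, 0 < w.1 ∧ p = S w := by
  have h1 : ∀ n, G^[3] (T^[3 * (n + 1)] p) = T^[3 * n] p := by
    intro n
    rw [show 3 * (n + 1) = 3 + 3 * n by ring, Function.iterate_add_apply,
      Git_Tit (Tit_pos hp _)]
  have h2 : chart.Ψ 0 = (0, 1, 1) := Ψ_zero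
  obtain ⟨w, hw⟩ := chart.par_complete (fun n => T^[3 * n] p) h1 (by rw [h2]; exact h)
  have hw' : ∀ n, T^[3 * n] p = S (b n w) := by
    intro n
    rw [hw n, Bit]
    rfl
  refine ⟨w, ?_, ?_⟩
  · rcases lt_trichotomy w.1 0 with h3 | h3 | h3
    · exfalso
      obtain ⟨n, hn⟩ := S_neg h3
      rw [← hw' n] at hn
      exact absurd (Tit_pos hp (3 * n)).1 (not_lt.2 hn.le)
    · exfalso
      have h4 := hw' 0
      have h5 : b 0 w = (0, w.2) := by
        simp only [b, h3, pow_zero, mul_zero, one_mul]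
      rw [h5] at h4
      have h6 := hp.1
      have h7 : p = S (0, w.2) := h4
      rw [h7, S_face] at h6
      exact lt_irrefl _ h6
    · exact h3
  · have h4 := hw' 0
    have h5 : b 0 w = w := by
      simp only [b, pow_zero, mul_zero, one_mul]
    rw [h5] at h4
    exact h4

end Surf

/-- the asymptotics on the curve -/
theorem Curve.err (P : Curve.Par) (t : ℝ) :
    Tendsto (fun n => ((Curve.c P (P.l ^ n * t)).1 - 1 / 2) / P.l ^ n) atTop (𝓝 t) := by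
  set U := Curve.ud P with hU
  have hl0 := P.l0
  have hl1 := P.l1
  -- the coordinate h1 is a Lipschitz function
  obtain ⟨-, K, δ, hK, hδ, hLip⟩ := Curve.lv_h1 P
  have hx : ∀ n, Curve.c P (P.l ^ n * t) = Curve.Ψ P (U.Φ (U.B^[n] t)) := by
    intro n
    rw [hU, Curve.Bit]
    rfl
  have hB0 : Tendsto (fun n => U.B^[n] t) atTop (𝓝 0) := Chart.Bit_tendsto (U := U) t
  have hΦ0 : Tendsto (fun n => U.Φ (U.B^[n] t)) atTop (𝓝 0) := by
    have h1 := (U.Φ_continuous.tendsto 0).comp hB0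
    rw [U.Φ_zero] at h1
    exact h1
  have hio0 : Tendsto (fun n => ((U.B^[n] t, 0) : ℝ × ℂ)) atTop (𝓝 0) := by
    have h1 : Continuous fun w : ℝ => ((w, 0) : ℝ × ℂ) := by fun_prop
    exact (h1.tendsto 0).comp hB0
  have e1 : ∀ᶠ n in atTop, ‖U.Φ (U.B^[n] t)‖ ≤ δ := by
    have h1 := hΦ0.norm
    rw [norm_zero] at h1
    exact h1.eventually (ge_mem_nhds hδ)
  have e2 : ∀ᶠ n in atTop, ‖((U.B^[n] t, 0) : ℝ × ℂ)‖ ≤ δ := by
    have h1 := hio0.norm
    rw [norm_zero] at h1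
    exact h1.eventually (ge_mem_nhds hδ)
  rw [tendsto_iff_norm_sub_tendsto_zero]
  have h1 : Tendsto (fun n : ℕ => K * U.C * ‖t‖ ^ 2 * P.l ^ n) atTop (𝓝 0) := by
    have := (tendsto_pow_atTop_nhds_zero_of_lt_one hl0.le hl1).const_mul (K * U.C * ‖t‖ ^ 2)
    rwa [mul_zero] at this
  refine squeeze_zero' (Eventually.of_forall fun n => norm_nonneg _) ?_ h1
  filter_upwards [e1, e2, U.Φ_asymp t] with n a1 a2 a3
  have a4 := hLip _ _ a1 a2
  have hr : U.r = P.l := rfl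
  rw [hr] at a3
  have a5 : Curve.h1 P ((U.B^[n] t, 0) : ℝ × ℂ) = P.l ^ n * t := by
    rw [hU, Curve.Bit]
    simp [Curve.h1]
  have a6 : (Curve.c P (P.l ^ n * t)).1 - 1 / 2 = Curve.h1 P (U.Φ (U.B^[n] t)) := by
    rw [hx n]
    simp only [Curve.Ψ]
    ring
  have hln : 0 < P.l ^ n := by positivity
  rw [a6]
  have a7 : Curve.h1 P (U.Φ (U.B^[n] t)) / P.l ^ n - t =
      (Curve.h1 P (U.Φ (U.B^[n] t)) - Curve.h1 P ((U.B^[n] t, 0) : ℝ × ℂ)) / P.l ^ n := by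
    rw [a5]
    field_simp
  rw [a7, norm_div, Real.norm_eq_abs, Real.norm_of_nonneg hln.le, div_le_iff₀ hln]
  refine a4.trans ((mul_le_mul_of_nonneg_left a3 hK).trans (le_of_eq ?_))
  ring

end Pool.Agent.Lib.MP_b43024_an
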